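import Mathlib
import Pool.Graph.R_pool_sql_team_seeded_9f66d723.W5h22.PV.D

set_option autoImplicit false
set_option maxHeartbeats 4000000

/-! Weights whose mean value is zero in the residue classes modulo one number (after `W5h22/PV/C`, `W5h22/PV/D` of the
starting library, where the mean value is zero in the residue classes modulo all numbers). -/

namespace Pool.Agent.Helper64.EQ
open Finset Polynomial Filter Topology
open Pool.Agent.Helper602.MK
open Pool.Agent.H373R2.NB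
open Pool.Agent.W5h22.PV (GS pk pw mem_PP df_int df wZ evt_div_log evt_sqrt_log second markov sum_embed small_values pw_sub_pk)

/-- mean value zero over the primes in every reduced residue class modulo `W` -/
def MW (g : ℕ → ℝ) (W : ℕ) : Prop := ∀ b : ℕ, Nat.Coprime b W →
  Tendsto (fun t : ℕ => GS g W b t * Real.log t / t) atTop (𝓝 0)

/-- uniform smallness of the weighted counts in one residue class -/
lemma uni (g : ℕ → ℝ) (hg : ∀ p, |g p| ≤ 1) (W b : ℕ) (hW : 1 ≤ W) (hz : MW g W) (ε : ℝ) (hε : 0 < ε) :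
    ∀ᶠ X : ℕ in atTop, ∀ t : ℕ, t ≤ 3 * X → |GS g W b t| ≤ ε * (X / Real.log X) := by
  have htriv : ∀ (S : Finset ℕ), |∑ p ∈ S, g p| ≤ #S := by
    intro S
    calc |∑ p ∈ S, g p| ≤ ∑ p ∈ S, |g p| := abs_sum_le_sum_abs _ _
      _ ≤ ∑ _p ∈ S, (1 : ℝ) := sum_le_sum fun p _ => hg p
      _ = #S := by simp
  by_cases hb : Nat.Coprime b W
  · have h1 := hz b hb
    have h2 := (Metric.tendsto_nhds.1 h1) (ε / 3) (by positivity)
    obtain ⟨t₀, ht₀⟩ := eventually_atTop.1 h2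
    filter_upwards [evt_div_log (t₀ + 3) ε hε, eventually_ge_atTop 3] with X hX hX3
    intro t ht
    have hX3r : (3 : ℝ) ≤ X := by exact_mod_cast hX3
    have hlX : 0 < Real.log X := Real.log_pos (by linarith)
    rcases le_or_gt t (t₀ + 3) with h | h
    · refine (htriv _).trans ?_
      have h3 : #((Icc 1 t).filter (fun p => p.Prime ∧ p ≡ b [MOD W])) ≤ t := by
        refine (card_filter_le _ _).trans ?_
        rw [Nat.card_Icc]; omega
      have h4 : (#((Icc 1 t).filter (fun p => p.Prime ∧ p ≡ b [MOD W])) : ℝ) ≤ t₀ + 3 := by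
        exact_mod_cast h3.trans h
      linarith
    · have h3 := ht₀ t (by omega)
      rw [Real.dist_eq, sub_zero, abs_div, abs_mul] at h3
      have ht3 : (3 : ℝ) < t := by exact_mod_cast (by omega : 3 < t)
      have hlt : 0 < Real.log t := Real.log_pos (by linarith)
      rw [abs_of_pos hlt, abs_of_pos (by linarith : (0 : ℝ) < t), div_lt_iff₀ (by linarith)] at h3
      have h4 : |GS g W b t| ≤ ε / 3 * (t / Real.log t) := by
        rw [← mul_div_assoc, le_div_iff₀ hlt]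
        exact h3.le
      refine h4.trans ?_
      have htX : (t : ℝ) ≤ 3 * X := by exact_mod_cast ht
      have hexp : Real.exp 1 ≤ 3 := by
        have := Real.exp_one_lt_d9; linarith
      have h5 : Real.log (3 * X) / (3 * X) ≤ Real.log t / t :=
        Real.log_div_self_antitoneOn (show Real.exp 1 ≤ (t : ℝ) by linarith) (show Real.exp 1 ≤ 3 * (X : ℝ) by linarith) htX
      have hl3 : Real.log X ≤ Real.log (3 * X) := Real.log_le_log (by linarith) (by linarith)
      have h6 : t / Real.log t ≤ 3 * (X / Real.log X) := by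
        have h7 : Real.log X / (3 * X) ≤ Real.log t / t := le_trans (div_le_div_of_nonneg_right hl3 (by linarith)) h5
        have h8 : 0 < Real.log X / (3 * X) := by positivity
        have h9 := one_div_le_one_div_of_le h8 h7
        rw [one_div_div, one_div_div] at h9
        rw [← mul_div_assoc]; exact h9
      calc ε / 3 * (t / Real.log t) ≤ ε / 3 * (3 * (X / Real.log X)) := mul_le_mul_of_nonneg_left h6 (by positivity)
        _ = _ := by ring
  · filter_upwards [evt_div_log W ε hε] with X hX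
    intro t _
    refine (htriv _).trans (le_trans ?_ hX)
    have h1 : (Icc 1 t).filter (fun p => p.Prime ∧ p ≡ b [MOD W]) ⊆ Icc 1 W := by
      intro p hp
      rw [mem_filter, mem_Icc] at hp
      obtain ⟨⟨h1, _⟩, h2, h3⟩ := hp
      rw [mem_Icc]
      refine ⟨h1, ?_⟩
      have h4 : Nat.gcd p W = Nat.gcd b W := Nat.ModEq.gcd_eq h3
      by_contra h5
      apply hb
      unfold Nat.Coprime
      rw [← h4]
      have h6 : ¬ p ∣ W := fun h => h5 (Nat.le_of_dvd hW h)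
      exact (Nat.Prime.coprime_iff_not_dvd h2).2 h6
    have h2 := card_le_card h1
    rw [Nat.card_Icc, Nat.add_sub_cancel] at h2
    exact_mod_cast h2

/-- the sums over the shifts are small for a weight of mean value zero -/
lemma shifts_small (g : ℕ → ℝ) (hg : ∀ p, |g p| ≤ 1) (W : ℕ) (hW : 1 ≤ W) (hz : MW g W) (ε : ℝ) (hε : 0 < ε) :
    ∀ᶠ X : ℕ in atTop, ∀ (v : ℤ) (J : ℕ), v + (J * W : ℕ) ≤ 3 * X →
      |∑ j ∈ Icc 1 J, pk g (3 * X) (v + (j * W : ℕ))| ≤ ε * (X / Real.log X) := by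
  have h1 : ∀ᶠ X : ℕ in atTop, ∀ b ∈ range W, ∀ t : ℕ, t ≤ 3 * X → |GS g W b t| ≤ ε / 3 * (X / Real.log X) := by
    rw [eventually_all_finset]
    intro b _
    exact uni g hg W b hW hz (ε / 3) (by positivity)
  filter_upwards [h1, evt_sqrt_log 1 (ε / 3) (by positivity), eventually_ge_atTop 3] with X hX hX2 hX3
  intro v J hv
  have hX3r : (3 : ℝ) ≤ X := by exact_mod_cast hX3
  have hlX : 0 < Real.log X := Real.log_pos (by linarith)
  set b : ℕ := (v % W).toNat with hb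
  have hWz : (0 : ℤ) < W := by exact_mod_cast hW
  have hvb : ((b : ℕ) : ℤ) = v % W := Int.toNat_of_nonneg (Int.emod_nonneg v hWz.ne')
  have hbW : b < W := by
    have := Int.emod_lt_of_pos v hWz
    omega
  set A := (Icc 1 (v + (J * W : ℕ)).toNat).filter (fun p => p.Prime ∧ p ≡ b [MOD W]) with hA
  set B := (Icc 1 v.toNat).filter (fun p => p.Prime ∧ p ≡ b [MOD W]) with hB
  have hBA : B ⊆ A := by
    intro p hp
    rw [hB, mem_filter, mem_Icc] at hp
    rw [hA, mem_filter, mem_Icc]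
    exact ⟨⟨hp.1.1, by omega⟩, hp.2⟩
  have hmod : ∀ p : ℕ, p ≡ b [MOD W] ↔ (W : ℤ) ∣ (p : ℤ) - v := by
    intro p
    rw [← Int.natCast_modEq_iff, hvb]
    constructor
    · intro h
      have h2 : (p : ℤ) ≡ v [ZMOD W] := h.trans (Int.mod_modEq v W)
      exact (Int.modEq_iff_dvd.1 h2.symm)
    · intro h
      exact (Int.modEq_iff_dvd.2 h).symm.trans (Int.mod_modEq v W).symm
  -- the sum over `j` as a sum over primes
  have hsum : ∑ j ∈ Icc 1 J, pk g (3 * X) (v + (j * W : ℕ)) = ∑ p ∈ (A \ B).filter (fun p => p ∈ PP (3 * X)), g p := by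
    unfold pk
    rw [← sum_filter]
    apply sum_bij (fun (j : ℕ) _ => (v + (j * W : ℕ)).toNat)
    · intro j hj
      rw [mem_filter, mem_Icc] at hj
      have hp := (mem_PP _ _).1 hj.2
      have hpos : 0 < v + (j * W : ℕ) := by
        have := hp.2.1.pos
        omega
      have hjW : W ≤ j * W := Nat.le_mul_of_pos_left W (by omega)
      have hjJ : j * W ≤ J * W := Nat.mul_le_mul_right W hj.1.2
      rw [mem_filter, Finset.mem_sdiff, hA, hB, mem_filter, mem_filter, mem_Icc, mem_Icc]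
      have hm : (v + (j * W : ℕ)).toNat ≡ b [MOD W] := by
        rw [hmod, Int.toNat_of_nonneg hpos.le]
        refine ⟨j, ?_⟩
        push_cast; ring
      refine ⟨⟨⟨⟨hp.2.1.one_lt.le, by omega⟩, hp.2.1, hm⟩, ?_⟩, hj.2⟩
      rintro ⟨⟨_, h⟩, _⟩
      omega
    · intro i hi j hj hij
      rw [mem_filter, mem_Icc] at hi hj
      have hp := ((mem_PP _ _).1 hi.2).2.1.pos
      have hp' := ((mem_PP _ _).1 hj.2).2.1.pos
      have : i * W = j * W := by omega
      exact Nat.eq_of_mul_eq_mul_right hW this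
    · intro p hp
      rw [mem_filter, Finset.mem_sdiff, hA, hB, mem_filter, mem_filter, mem_Icc, mem_Icc] at hp
      obtain ⟨⟨⟨⟨hp1, hp2⟩, hpp, hpb⟩, hpn⟩, hpk⟩ := hp
      obtain ⟨j, hj⟩ := (hmod p).1 hpb
      have hpv : v < p := by
        by_contra hcon
        exact hpn ⟨⟨hp1, by omega⟩, hpp, hpb⟩
      have hj0 : 0 < j := by
        by_contra hcon
        have : (W : ℤ) * j ≤ 0 := mul_nonpos_of_nonneg_of_nonpos hWz.le (by omega)
        omega
      have hpJ : (p : ℤ) ≤ v + (J * W : ℕ) := by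
        omega
      have hjJ : j ≤ J := by
        by_contra hcon
        have h3 : (W : ℤ) * (J + 1) ≤ W * j := mul_le_mul_of_nonneg_left (by omega) hWz.le
        have h4 : ((J * W : ℕ) : ℤ) = W * J := by push_cast; ring
        rw [h4] at hpJ
        nlinarith
      have hval : v + ((j.toNat * W : ℕ) : ℤ) = p := by
        push_cast
        rw [Int.toNat_of_nonneg hj0.le]
        linarith
      refine ⟨j.toNat, ?_, ?_⟩
      · rw [mem_filter, mem_Icc]
        refine ⟨⟨by omega, by omega⟩, ?_⟩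
        rw [hval, Int.toNat_natCast]; exact hpk
      · rw [hval, Int.toNat_natCast]
    · intro j _
      rfl
  have htriv : ∀ (S : Finset ℕ), |∑ p ∈ S, g p| ≤ #S := by
    intro S
    calc |∑ p ∈ S, g p| ≤ ∑ p ∈ S, |g p| := abs_sum_le_sum_abs _ _
      _ ≤ ∑ _p ∈ S, (1 : ℝ) := sum_le_sum fun p _ => hg p
      _ = #S := by simp
  have e1 : ∑ p ∈ A \ B, g p = ∑ p ∈ A, g p - ∑ p ∈ B, g p := by
    rw [← sum_sdiff hBA]; ring
  have e2 : ∑ p ∈ (A \ B).filter (fun p => p ∈ PP (3 * X)), g p = ∑ p ∈ A, g p - ∑ p ∈ B, g p -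
      ∑ p ∈ (A \ B).filter (fun p => p ∉ PP (3 * X)), g p := by
    rw [← e1, ← sum_filter_add_sum_filter_not (A \ B) (fun p => p ∈ PP (3 * X))]; ring
  have hsm : (#((A \ B).filter (fun p => p ∉ PP (3 * X))) : ℝ) ≤ ε / 3 * (X / Real.log X) := by
    have h3 : (A \ B).filter (fun p => p ∉ PP (3 * X)) ⊆ Icc 1 (Nat.sqrt (3 * X)) := by
      intro p hp
      rw [mem_filter, Finset.mem_sdiff, hA, mem_filter, mem_Icc] at hp
      obtain ⟨⟨⟨⟨hp1, hp2⟩, hpp, _⟩, _⟩, hpk⟩ := hp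
      rw [mem_PP] at hpk
      rw [mem_Icc]
      refine ⟨hp1, Nat.le_sqrt'.2 ?_⟩
      by_contra hcon
      exact hpk ⟨by omega, hpp, by omega⟩
    have h4 := card_le_card h3
    rw [Nat.card_Icc, Nat.add_sub_cancel] at h4
    have h5 : (#((A \ B).filter (fun p => p ∉ PP (3 * X))) : ℝ) ≤ Real.sqrt (3 * X) := by
      calc (#((A \ B).filter (fun p => p ∉ PP (3 * X))) : ℝ) ≤ (Nat.sqrt (3 * X) : ℝ) := by exact_mod_cast h4
        _ ≤ Real.sqrt ((3 * X : ℕ) : ℝ) := Real.nat_sqrt_le_real_sqrt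
        _ = _ := by push_cast; rfl
    refine h5.trans ?_
    rw [← mul_div_assoc, le_div_iff₀ hlX]
    rw [one_mul] at hX2
    nlinarith [Real.sqrt_nonneg (3 * (X : ℝ))]
  rw [hsum, e2]
  have hAs := hX b (mem_range.2 hbW) (v + (J * W : ℕ)).toNat (by omega)
  have hBs := hX b (mem_range.2 hbW) v.toNat (by omega)
  have hN := (htriv ((A \ B).filter (fun p => p ∉ PP (3 * X)))).trans hsm
  unfold GS at hAs hBs
  rw [← hA] at hAs
  rw [← hB] at hBs
  rw [abs_le] at hAs hBs hN ⊢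
  constructor <;> linarith [hAs.1, hAs.2, hBs.1, hBs.2, hN.1, hN.2]

/-- **Fixed length.** -/
theorem fixed (F : ℤ[X]) (hd : 1 ≤ F.natDegree) (hl : 0 < F.leadingCoeff) (B : ℕ) (hB : 1 ≤ B) (ε : ℝ) (hε : 0 < ε) :
    ∃ W₀ : ℕ, 1 ≤ W₀ ∧ ∀ g : ℕ → ℝ, (∀ p, |g p| ≤ 1) → MW g W₀ →
    ∀ᶠ N : ℕ in atTop, ∀ x : ℕ, 1 ≤ x → N ≤ B * x ^ F.natDegree → (∀ n ∈ Icc 1 x, |F.eval (n : ℤ)| ≤ N) →
      ∀ e : ℤ, (e = 1 ∨ e = -1) →
        (#((Icc (-(N : ℤ)) N).filter (fun a => ε * (x / Real.log N) < |∑ n ∈ Icc 1 x, pw g (e * (a + F.eval (n : ℤ)))|)) : ℝ) ≤ ε * N := by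
  obtain ⟨W₀, hW₀, τ₀, hτ₀, k0, hk0, hsec⟩ := second F hd hl (7 * B) (by omega) (ε ^ 3 / 200) (by positivity)
  set τ : ℝ := min τ₀ 1 with hτ
  have hτ0 : 0 < τ := by positivity
  have hτ1 : τ ≤ 1 := min_le_right _ _
  have hττ : τ ≤ τ₀ := min_le_left _ _
  have hW0r : (1 : ℝ) ≤ W₀ := by exact_mod_cast hW₀
  have hW0p : (0 : ℝ) < W₀ := by linarith
  have hevN : ∀ᶠ N : ℕ in atTop, 2 * W₀ / τ ≤ N := tendsto_natCast_atTop_atTop.eventually_ge_atTop _
  refine ⟨W₀, hW₀, fun g hg hz => ?_⟩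
  filter_upwards [shifts_small g hg W₀ hW₀ hz (ε * τ / (8 * W₀)) (by positivity), evt_sqrt_log (4 / ε) (ε / 4) (by positivity),
    hevN, eventually_ge_atTop (k0 + 3)] with N hsh hsq hN1 hN2
  intro x hx hNx hFx e he
  have hN3 : (3 : ℝ) ≤ N := by exact_mod_cast (by omega : 3 ≤ N)
  have hN0 : (0 : ℝ) < N := by linarith
  have hlN : 0 < Real.log N := Real.log_pos (by linarith)
  have hx0 : (0 : ℝ) < x := by exact_mod_cast hx
  have : NeZero (7 * N) := ⟨by omega⟩
  set J : ℕ := ⌊τ * N / W₀⌋₊ with hJ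
  have hJle : (J : ℝ) ≤ τ * N / W₀ := Nat.floor_le (by positivity)
  have hge2 : 2 ≤ τ * N / W₀ := by
    rw [le_div_iff₀ hW0p]
    rw [div_le_iff₀ hτ0] at hN1
    linarith
  have hJge : τ * N / W₀ / 2 ≤ J := by
    have := Nat.lt_floor_add_one (τ * N / W₀)
    rw [← hJ] at this
    linarith
  have hJ1 : 1 ≤ J := by
    have : (1 : ℝ) ≤ J := by linarith
    exact_mod_cast this
  have hJ0 : (0 : ℝ) < J := by exact_mod_cast hJ1
  have hJW : ((J * W₀ : ℕ) : ℝ) ≤ τ * N := by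
    push_cast
    rw [le_div_iff₀ hW0p] at hJle
    exact hJle
  have hJWN : J * W₀ ≤ N := by
    have : ((J * W₀ : ℕ) : ℝ) ≤ N := hJW.trans (by nlinarith)
    exact_mod_cast this
  have hM1 : N ≤ B * x ^ F.natDegree := hNx
  have hs := hsec (3 * N) (by omega) (7 * N) (by omega) (by omega) x hx
    (by calc 7 * N ≤ 7 * (B * x ^ F.natDegree) := Nat.mul_le_mul_left 7 hM1
      _ = _ := by ring) W₀ J hJ1 dvd_rfl (by
        push_cast
        push_cast at hJW
        calc (J : ℝ) * W₀ ≤ τ * N := hJW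
          _ ≤ τ₀ * (3 * N) := by nlinarith) g hg e he
  -- the difference for an integer `a`
  set D : ℤ → ℝ := fun a => ∑ n ∈ Icc 1 x, df W₀ J (wZ g (3 * N) (7 * N)) (((e * a : ℤ) : ZMod (7 * N)) + ((e * F.eval (n : ℤ) : ℤ) : ZMod (7 * N))) with hD
  have hDsq : ∑ a ∈ Icc (-(N : ℤ)) N, D a ^ 2 ≤ 3 * (ε ^ 3 / 200) * N * (x / Real.log N) ^ 2 := by
    have h1 := sum_embed (M := 7 * N) N (by omega) e he (fun a => (∑ n ∈ Icc 1 x, df W₀ J (wZ g (3 * N) (7 * N)) (a + ((e * F.eval (n : ℤ) : ℤ) : ZMod (7 * N)))) ^ 2)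
      (fun a => sq_nonneg _)
    refine h1.trans (hs.trans ?_)
    push_cast
    have h2 : Real.log N ≤ Real.log (3 * N) := Real.log_le_log hN0 (by linarith)
    have h3 : (x / Real.log (3 * N)) ^ 2 ≤ (x / Real.log N) ^ 2 := by
      apply pow_le_pow_left₀ (div_nonneg hx0.le (hlN.le.trans h2))
      exact div_le_div_of_nonneg_left hx0.le hlN h2
    calc ε ^ 3 / 200 * (3 * (N : ℝ)) * (x / Real.log (3 * N)) ^ 2 ≤ ε ^ 3 / 200 * (3 * (N : ℝ)) * (x / Real.log N) ^ 2 :=
          mul_le_mul_of_nonneg_left h3 (by positivity)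
      _ = _ := by ring
  set c : ℤ → ℝ := fun a => (#((Icc 1 x).filter (fun n : ℕ => 1 ≤ e * (a + F.eval (n : ℤ)) ∧ e * (a + F.eval (n : ℤ)) ≤ (Nat.sqrt (3 * N) : ℕ))) : ℝ) with hc
  have hcs : ∑ a ∈ Icc (-(N : ℤ)) N, c a ≤ x * Real.sqrt (3 * N) := by
    refine (small_values F N (Nat.sqrt (3 * N)) x e he).trans ?_
    apply mul_le_mul_of_nonneg_left _ hx0.le
    calc (Nat.sqrt (3 * N) : ℝ) ≤ Real.sqrt ((3 * N : ℕ) : ℝ) := Real.nat_sqrt_le_real_sqrt
      _ = _ := by push_cast; rfl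
  set lam : ℝ := ε / 4 * (x / Real.log N) with hlam
  have hlam0 : 0 < lam := by positivity
  have hB1 : (#((Icc (-(N : ℤ)) N).filter (fun a => lam ^ 2 < D a ^ 2)) : ℝ) ≤ ε / 4 * N := by
    have h1 := (markov (Icc (-(N : ℤ)) N) (fun a => D a ^ 2) (lam ^ 2) (fun a _ => sq_nonneg _)).trans hDsq
    have h2 : 3 * (ε ^ 3 / 200) * N * (x / Real.log N) ^ 2 ≤ (ε / 4 * N) * lam ^ 2 := by
      rw [hlam]
      have h3 : 0 ≤ ε ^ 3 * N * (x / Real.log N) ^ 2 := by positivity
      have h4 : (ε / 4 * N) * (ε / 4 * (x / Real.log N)) ^ 2 = (1 / 64) * (ε ^ 3 * N * (x / Real.log N) ^ 2) := by ring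
      rw [h4]
      linarith
    exact le_of_mul_le_mul_right (h1.trans h2) (pow_pos hlam0 2)
  have hB2 : (#((Icc (-(N : ℤ)) N).filter (fun a => lam < c a)) : ℝ) ≤ ε / 4 * N := by
    have h1 := (markov (Icc (-(N : ℤ)) N) c lam (fun a _ => Nat.cast_nonneg _)).trans hcs
    have h2 : x * Real.sqrt (3 * N) ≤ (ε / 4 * N) * lam := by
      rw [hlam]
      have h3 : (4 / ε) * Real.sqrt (3 * N) * Real.log N ≤ ε / 4 * N := by
        refine le_trans ?_ hsq
        apply mul_le_mul_of_nonneg_right _ hlN.le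
        apply mul_le_mul_of_nonneg_left _ (by positivity)
        linarith
      calc (x : ℝ) * Real.sqrt (3 * N) = ((4 / ε) * Real.sqrt (3 * N) * Real.log N) * (ε / 4 * (x / Real.log N)) := by
            field_simp
        _ ≤ _ := mul_le_mul_of_nonneg_right h3 (by positivity)
    exact le_of_mul_le_mul_right (h1.trans h2) hlam0
  have hsub : (Icc (-(N : ℤ)) N).filter (fun a => ε * (x / Real.log N) < |∑ n ∈ Icc 1 x, pw g (e * (a + F.eval (n : ℤ)))|) ⊆
      (Icc (-(N : ℤ)) N).filter (fun a => lam ^ 2 < D a ^ 2) ∪ (Icc (-(N : ℤ)) N).filter (fun a => lam < c a) := by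
    intro a ha
    rw [mem_filter] at ha
    obtain ⟨haN, hbig⟩ := ha
    rw [mem_union, mem_filter, mem_filter]
    by_contra hcon
    push Not at hcon
    have hD1 := hcon.1 haN
    have hc1 := hcon.2 haN
    rw [mem_Icc] at haN
    have hD2 : |D a| ≤ lam := abs_le_of_sq_le_sq hD1 hlam0.le
    have hv : ∀ n ∈ Icc 1 x, -(2 * N : ℤ) ≤ e * (a + F.eval (n : ℤ)) ∧ e * (a + F.eval (n : ℤ)) ≤ 2 * N := by
      intro n hn
      have h1 := abs_le.1 (hFx n hn)
      rcases he with rfl | rfl <;> constructor <;> omega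
    have hDa : D a = ∑ n ∈ Icc 1 x, (pk g (3 * N) (e * (a + F.eval (n : ℤ))) -
        (1 / (J : ℝ)) * ∑ j ∈ Icc 1 J, pk g (3 * N) (e * (a + F.eval (n : ℤ)) + (j * W₀ : ℕ))) := by
      simp only [hD]
      apply sum_congr rfl
      intro n hn
      have h1 := hv n hn
      rw [← df_int (M := 7 * N) g (3 * N) W₀ J (e * (a + F.eval (n : ℤ))) (by push_cast; omega) (by push_cast at *; omega)]
      congr 1
      push_cast; ring
    have hs1 : |∑ n ∈ Icc 1 x, (1 / (J : ℝ)) * ∑ j ∈ Icc 1 J, pk g (3 * N) (e * (a + F.eval (n : ℤ)) + (j * W₀ : ℕ))| ≤ lam := by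
      calc _ ≤ ∑ n ∈ Icc 1 x, |(1 / (J : ℝ)) * ∑ j ∈ Icc 1 J, pk g (3 * N) (e * (a + F.eval (n : ℤ)) + (j * W₀ : ℕ))| := abs_sum_le_sum_abs _ _
        _ ≤ ∑ _n ∈ Icc 1 x, ε / 4 * (1 / Real.log N) := by
            apply sum_le_sum
            intro n hn
            have h1 := hv n hn
            have h2 := hsh (e * (a + F.eval (n : ℤ))) J (by push_cast at *; omega)
            rw [abs_mul, abs_of_pos (by positivity : (0 : ℝ) < 1 / (J : ℝ)), one_div, inv_mul_le_iff₀ hJ0]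
            refine h2.trans ?_
            calc ε * τ / (8 * W₀) * (N / Real.log N) = (τ * N / W₀ / 2) * (ε / 4 * (1 / Real.log N)) := by
                  field_simp; norm_num
              _ ≤ J * (ε / 4 * (1 / Real.log N)) := mul_le_mul_of_nonneg_right hJge (by positivity)
        _ = lam := by
            rw [sum_const, Nat.card_Icc, Nat.add_sub_cancel, nsmul_eq_mul, hlam]; ring
    have hs2 : |∑ n ∈ Icc 1 x, (pw g (e * (a + F.eval (n : ℤ))) - pk g (3 * N) (e * (a + F.eval (n : ℤ))))| ≤ c a := by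
      calc _ ≤ ∑ n ∈ Icc 1 x, |pw g (e * (a + F.eval (n : ℤ))) - pk g (3 * N) (e * (a + F.eval (n : ℤ)))| := abs_sum_le_sum_abs _ _
        _ ≤ ∑ n ∈ Icc 1 x, (if 1 ≤ e * (a + F.eval (n : ℤ)) ∧ e * (a + F.eval (n : ℤ)) ≤ (Nat.sqrt (3 * N) : ℕ) then (1 : ℝ) else 0) := by
            apply sum_le_sum
            intro n hn
            have h1 := hv n hn
            exact pw_sub_pk g hg (3 * N) _ (by push_cast; omega)
        _ = c a := by
            simp only [hc]
            rw [← sum_filter, sum_const, nsmul_eq_mul, mul_one]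
    have hfin : ∑ n ∈ Icc 1 x, pw g (e * (a + F.eval (n : ℤ))) = D a +
        ∑ n ∈ Icc 1 x, (1 / (J : ℝ)) * ∑ j ∈ Icc 1 J, pk g (3 * N) (e * (a + F.eval (n : ℤ)) + (j * W₀ : ℕ)) +
        ∑ n ∈ Icc 1 x, (pw g (e * (a + F.eval (n : ℤ))) - pk g (3 * N) (e * (a + F.eval (n : ℤ)))) := by
      rw [hDa, ← sum_add_distrib, ← sum_add_distrib]
      apply sum_congr rfl
      intro n _
      ring
    rw [hfin] at hbig
    have h4 := abs_add_three (D a) (∑ n ∈ Icc 1 x, (1 / (J : ℝ)) * ∑ j ∈ Icc 1 J, pk g (3 * N) (e * (a + F.eval (n : ℤ)) + (j * W₀ : ℕ)))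
      (∑ n ∈ Icc 1 x, (pw g (e * (a + F.eval (n : ℤ))) - pk g (3 * N) (e * (a + F.eval (n : ℤ)))))
    have h5 : ε * (x / Real.log N) = 4 * lam := by rw [hlam]; ring
    linarith
  calc _ ≤ ((#((Icc (-(N : ℤ)) N).filter (fun a => lam ^ 2 < D a ^ 2) ∪ (Icc (-(N : ℤ)) N).filter (fun a => lam < c a)) : ℕ) : ℝ) := by
        exact_mod_cast card_le_card hsub
    _ ≤ (#((Icc (-(N : ℤ)) N).filter (fun a => lam ^ 2 < D a ^ 2)) : ℝ) + #((Icc (-(N : ℤ)) N).filter (fun a => lam < c a)) := by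
        exact_mod_cast card_union_le _ _
    _ ≤ ε * N := by nlinarith

end Pool.Agent.Helper64.EQ
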