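import Mathlib
import Pool.Agent.Helper64.EQ.A
import Pool.Agent.Helper64.CF.Base
import Pool.Graph.R_pool_sql_team_seeded_9f66d723.W5h22.PV.E
import Pool.Graph.R_pool_sql_team_seeded_f72693b1.Results.MP_8be758_nt.AlmostAllOddA

set_option autoImplicit false
set_option maxHeartbeats 4000000

/-! Weights with mean value zero along the prime values of `x ^ 2 + x + A`, for almost all `A` and all lengths. -/

namespace Pool.Agent.Helper64.EQ
open Finset Polynomial Filter Topology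
open Pool.Agent.W5h22.PV (GS pk pw mem_PP df_int df wZ evt_div_log evt_sqrt_log second markov sum_embed small_values
  pw_sub_pk primes_le)
open Pool.Agent.Helper64.CF (P L C)

/-- the sum of `f (n ^ 2 + n + A)` over the `1 ≤ n ≤ y` for which `n ^ 2 + n + A` is a prime -/
noncomputable def R (f : ℕ → ℝ) (A y : ℕ) : ℝ :=
  ∑ n ∈ Icc 1 y, if (n ^ 2 + n + A).Prime then f (n ^ 2 + n + A) else 0

lemma R_pw (f : ℕ → ℝ) (A y : ℕ) :
    R f A y = ∑ n ∈ Icc 1 y, pw f (1 * ((A : ℤ) + (X ^ 2 + X : ℤ[X]).eval (n : ℤ))) := by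
  unfold R
  apply sum_congr rfl
  intro n _
  have e : (1 * ((A : ℤ) + (X ^ 2 + X : ℤ[X]).eval (n : ℤ))) = ((n ^ 2 + n + A : ℕ) : ℤ) := by
    simp only [eval_add, eval_pow, eval_X]
    push_cast
    ring
  unfold pw
  rw [e, Int.toNat_natCast]

lemma natDeg : (X ^ 2 + X : ℤ[X]).natDegree = 2 := by
  compute_degree!

lemma leadC : (X ^ 2 + X : ℤ[X]).leadingCoeff = 1 := by
  rw [leadingCoeff, natDeg]
  simp [coeff_X]

/-- weights of mean value zero, one length -/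
theorem fixedR (K : ℕ) (ε : ℝ) (hε : 0 < ε) :
    ∃ W₀ : ℕ, 1 ≤ W₀ ∧ ∀ g : ℕ → ℝ, (∀ p, |g p| ≤ 1) → MW g W₀ →
    ∀ᶠ N : ℕ in atTop, ∀ x : ℕ, 1 ≤ x → N ≤ K * x ^ 2 → x ^ 2 ≤ N →
        (#((Icc 1 N).filter (fun A => ε * (Real.sqrt N / Real.log N) < |R g A x|)) : ℝ) ≤ ε * N := by
  obtain ⟨W₀, hW₀, hfix⟩ := fixed (X ^ 2 + X : ℤ[X]) (by rw [natDeg]; norm_num) (by rw [leadC]; norm_num) (2 * K + 1)
    (by omega) (ε / 4) (by positivity)
  refine ⟨W₀, hW₀, fun g hg hz => ?_⟩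
  have htend : Tendsto (fun N : ℕ => 2 * N) atTop atTop := tendsto_id.const_mul_atTop' (by norm_num)
  filter_upwards [htend.eventually (hfix g hg hz), eventually_ge_atTop 3] with N hN hN3
  intro x hx hNx hxN
  have hN3r : (3 : ℝ) ≤ N := by exact_mod_cast hN3
  have hlN : 0 < Real.log N := Real.log_pos (by linarith)
  have hxs : (x : ℝ) ≤ Real.sqrt N := by
    apply Real.le_sqrt_of_sq_le
    exact_mod_cast hxN
  have hpre : ∀ n ∈ Icc 1 x, |(X ^ 2 + X : ℤ[X]).eval (n : ℤ)| ≤ ((2 * N : ℕ) : ℤ) := by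
    intro n hn
    rw [mem_Icc] at hn
    simp only [eval_add, eval_pow, eval_X]
    rw [abs_of_nonneg (by positivity)]
    have h1 : n ^ 2 ≤ x ^ 2 := Nat.pow_le_pow_left hn.2 2
    have h2 : n ≤ n ^ 2 := Nat.le_self_pow (by norm_num) n
    exact_mod_cast (by omega : n ^ 2 + n ≤ 2 * N)
  have h1 := hN x hx (by rw [natDeg]; nlinarith) hpre 1 (Or.inl rfl)
  have hle : Real.log N ≤ Real.log ((2 * N : ℕ) : ℝ) := Real.log_le_log (by linarith) (by push_cast; linarith)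
  have hcard : #((Icc 1 N).filter (fun A => ε * (Real.sqrt N / Real.log N) < |R g A x|)) ≤
      #((Icc (-((2 * N : ℕ) : ℤ)) ((2 * N : ℕ) : ℤ)).filter (fun a => ε / 4 * (x / Real.log ((2 * N : ℕ) : ℝ)) <
        |∑ n ∈ Icc 1 x, pw g (1 * (a + (X ^ 2 + X : ℤ[X]).eval (n : ℤ)))|)) := by
    apply card_le_card_of_injOn (fun A : ℕ => (A : ℤ))
    · intro A hA
      rw [mem_coe, mem_filter, mem_Icc] at hA
      rw [mem_coe, mem_filter, mem_Icc]
      beta_reduce
      refine ⟨⟨by omega, by push_cast; omega⟩, ?_⟩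
      rw [R_pw] at hA
      refine lt_of_le_of_lt ?_ hA.2
      have h3 : x / Real.log ((2 * N : ℕ) : ℝ) ≤ Real.sqrt N / Real.log N :=
        div_le_div₀ (Real.sqrt_nonneg _) hxs hlN hle
      have h4 : 0 ≤ Real.sqrt N / Real.log N := by positivity
      nlinarith
    · intro a _ b _ h
      beta_reduce at h
      exact_mod_cast h
  calc _ ≤ _ := by exact_mod_cast hcard
    _ ≤ ε / 4 * ((2 * N : ℕ) : ℝ) := h1
    _ ≤ ε * N := by push_cast; nlinarith

/-- the number of the primes `n ^ 2 + n + A` is bounded on average -/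
lemma R_mean : ∃ K : ℝ, 1 ≤ K ∧ ∀ N : ℕ, 3 ≤ N → ∀ x : ℕ, x ^ 2 ≤ N →
    ∑ A ∈ Icc 1 N, R (fun _ => 1) A x ≤ K * N * (Real.sqrt N / Real.log N) := by
  obtain ⟨K, hK, hpr⟩ := primes_le
  refine ⟨3 * K, by linarith, fun N hN x hx => ?_⟩
  have hN3 : (3 : ℝ) ≤ N := by exact_mod_cast hN
  have hN0 : (0 : ℝ) < N := by linarith
  have hlN : 0 < Real.log N := Real.log_pos (by linarith)
  have hxs : (x : ℝ) ≤ Real.sqrt N := by
    apply Real.le_sqrt_of_sq_le
    exact_mod_cast hx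
  unfold R
  rw [sum_comm]
  have h1 : ∀ n ∈ Icc 1 x, ∑ A ∈ Icc 1 N, (if (n ^ 2 + n + A).Prime then (1 : ℝ) else 0) ≤ 3 * K * (N / Real.log N) := by
    intro n hn
    rw [mem_Icc] at hn
    have hn2 : n ^ 2 ≤ N := (Nat.pow_le_pow_left hn.2 2).trans hx
    have hn3 : n ≤ n ^ 2 := Nat.le_self_pow (by norm_num) n
    rw [← sum_filter, sum_const, nsmul_eq_mul, mul_one]
    have h2 : #((Icc 1 N).filter (fun A => (n ^ 2 + n + A).Prime)) ≤ #((Icc 1 (3 * N)).filter Nat.Prime) := by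
      apply card_le_card_of_injOn (fun A => n ^ 2 + n + A)
      · intro A hA
        rw [mem_coe, mem_filter, mem_Icc] at hA
        rw [mem_coe, mem_filter, mem_Icc]
        exact ⟨⟨by simp only; omega, by simp only; omega⟩, hA.2⟩
      · intro a _ b _ hab
        simp only at hab
        omega
    have h4 := hpr (3 * N) (by omega)
    push_cast at h4
    have h5 : Real.log N ≤ Real.log (3 * N) := Real.log_le_log hN0 (by linarith)
    have h6 : (3 * N : ℝ) / Real.log (3 * N) ≤ 3 * (N / Real.log N) := by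
      rw [← mul_div_assoc]
      exact div_le_div_of_nonneg_left (by linarith) hlN h5
    calc (#((Icc 1 N).filter (fun A => (n ^ 2 + n + A).Prime)) : ℝ) ≤
        (#((Icc 1 (3 * N)).filter Nat.Prime) : ℝ) := by exact_mod_cast h2
      _ ≤ K * (3 * (N / Real.log N)) := h4.trans (mul_le_mul_of_nonneg_left h6 (by linarith))
      _ = _ := by ring
  calc _ ≤ ∑ _n ∈ Icc 1 x, 3 * K * (N / Real.log N) := sum_le_sum h1
    _ = x * (3 * K * (N / Real.log N)) := by
        rw [sum_const, Nat.card_Icc, Nat.add_sub_cancel, nsmul_eq_mul]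
    _ ≤ Real.sqrt N * (3 * K * (N / Real.log N)) := mul_le_mul_of_nonneg_right hxs (by positivity)
    _ = _ := by ring

lemma R_diff (g : ℕ → ℝ) (hg : ∀ p, |g p| ≤ 1) (A y₁ y₂ : ℕ) (h : y₁ ≤ y₂) :
    |R g A y₂ - R g A y₁| ≤ (P A y₂ : ℝ) - P A y₁ := by
  have key : R g A y₂ - R g A y₁ = ∑ n ∈ Ioc y₁ y₂, if (n ^ 2 + n + A).Prime then g (n ^ 2 + n + A) else 0 := by
    unfold R
    have h1 : Icc 1 y₂ = Icc 1 y₁ ∪ Ioc y₁ y₂ := by
      ext n; simp only [mem_union, mem_Icc, mem_Ioc]; omega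
    have h2 : Disjoint (Icc 1 y₁) (Ioc y₁ y₂) := by
      rw [disjoint_left]; intro n; simp only [mem_Icc, mem_Ioc]; omega
    rw [h1, sum_union h2]; ring
  rw [key, Pool.Agent.Helper64.CF.P_sub A y₁ y₂ h, card_filter]
  push_cast
  refine (abs_sum_le_sum_abs _ _).trans (sum_le_sum fun n _ => ?_)
  split_ifs
  · exact hg _
  · rw [abs_zero]

lemma R_one (A y : ℕ) : (P A y : ℝ) - 1 ≤ R (fun _ => 1) A y ∧ R (fun _ => 1) A y ≤ P A y := by
  have h := Pool.Agent.Helper64.CF.P_sub A 0 y (Nat.zero_le _)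
  have e : R (fun _ => 1) A y = (((Ioc 0 y).filter (fun x : ℕ => (x ^ 2 + x + A).Prime)).card : ℝ) := by
    unfold R
    rw [← sum_filter, sum_const, nsmul_eq_mul, mul_one]
    rfl
  have h0 : P A 0 ≤ 1 := by
    unfold P
    exact (card_filter_le _ _).trans (by simp)
  have h0' : (P A 0 : ℝ) ≤ 1 := by exact_mod_cast h0
  have h1' : (0 : ℝ) ≤ P A 0 := Nat.cast_nonneg _
  rw [e, ← h]
  constructor <;> linarith

end Pool.Agent.Helper64.EQ
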