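import Mathlib
import Pool.Agent.Helper64.EQ.B
import Pool.Graph.R_pool_sql_team_seeded_9f66d723.W5h22.PV.G

set_option autoImplicit false
set_option maxHeartbeats 4000000

/-! Weights with mean value zero along the prime values of `x ^ 2 + x + A`, for almost all `A` and all lengths. -/

namespace Pool.Agent.Helper64.EQ
open Finset Filter Topology
open Pool.Agent.W5h22.PV (markov grid_point)
open Pool.Agent.Helper64.CF (P L C)

lemma C_partial (A z : ℕ) : C A z = Pool.Agent.Results.MP_8be758_nt.AlmostAllOddA.partialProd A (z + 1) := by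
  unfold C Pool.Agent.Results.MP_8be758_nt.AlmostAllOddA.partialProd
  apply Finset.prod_congr
  · ext p
    simp only [mem_filter, mem_Icc, mem_range]
    constructor
    · rintro ⟨⟨h1, h2⟩, h3⟩
      exact ⟨by omega, h3, by omega⟩
    · rintro ⟨h1, h2, h3⟩
      exact ⟨⟨by omega, by omega⟩, h2⟩
  · intros
    rfl

lemma L_diff (A : ℕ) (hA : 3 ≤ A) (y₁ y₂ : ℕ) (h : y₁ ≤ y₂) :
    0 ≤ L A y₂ - L A y₁ ∧ L A y₂ - L A y₁ ≤ 2 * ((y₂ : ℝ) - y₁) / Real.log A := by
  have h0 : (0 : ℝ) ≤ y₁ := Nat.cast_nonneg _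
  have h1 : (y₁ : ℝ) ≤ y₂ := by exact_mod_cast h
  have hA' : (3 : ℝ) ≤ A := by exact_mod_cast hA
  have hlA : 0 < Real.log A := Real.log_pos (by linarith)
  have e : L A y₂ - L A y₁ = 2 * ∫ x in (y₁ : ℝ)..y₂, 1 / Real.log (x ^ 2 + x + A) := by
    unfold L
    rw [← intervalIntegral.integral_add_adjacent_intervals (a := (0 : ℝ)) (b := y₁) (c := y₂)
      (Pool.Agent.Helper64.CF.integrable A hA 0 y₁ le_rfl h0) (Pool.Agent.Helper64.CF.integrable A hA y₁ y₂ h0 h1)]
    ring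
  have k1 : 0 ≤ ∫ x in (y₁ : ℝ)..y₂, 1 / Real.log (x ^ 2 + x + A) := by
    apply intervalIntegral.integral_nonneg h1
    intro x hx
    exact (Pool.Agent.Helper64.CF.g_bd A hA x (h0.trans hx.1)).1
  have k2 := intervalIntegral.integral_mono_on h1 (Pool.Agent.Helper64.CF.integrable A hA y₁ y₂ h0 h1)
    (intervalIntegrable_const (c := 1 / Real.log (A : ℝ))) (by
      intro x hx
      rw [Set.mem_Icc] at hx
      apply one_div_le_one_div_of_le hlA
      apply Real.log_le_log (by linarith)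
      nlinarith [h0.trans hx.1])
  rw [intervalIntegral.integral_const, smul_eq_mul] at k2
  rw [e]
  refine ⟨by linarith, ?_⟩
  have e2 : 2 * ((y₂ : ℝ) - y₁) / Real.log A = 2 * (((y₂ : ℝ) - y₁) * (1 / Real.log A)) := by ring
  rw [e2]
  linarith

lemma L_ge (A : ℕ) (hA : 3 ≤ A) (n : ℕ) (M : ℝ) (hM : (n : ℝ) ^ 2 + n + A ≤ M) :
    2 * n / Real.log M ≤ L A n := by
  have h0 : (0 : ℝ) ≤ n := Nat.cast_nonneg _
  have hA' : (3 : ℝ) ≤ A := by exact_mod_cast hA
  have hM3 : 3 ≤ M := by nlinarith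
  have k2 := intervalIntegral.integral_mono_on h0 (intervalIntegrable_const (c := 1 / Real.log M))
    (Pool.Agent.Helper64.CF.integrable A hA 0 n le_rfl h0) (by
      intro x hx
      rw [Set.mem_Icc] at hx
      have h1 : (3 : ℝ) ≤ x ^ 2 + x + A := by nlinarith
      apply one_div_le_one_div_of_le (Real.log_pos (by linarith))
      apply Real.log_le_log (by linarith)
      nlinarith [hx.1, hx.2])
  rw [intervalIntegral.integral_const, smul_eq_mul] at k2
  unfold L
  have e2 : 2 * (n : ℝ) / Real.log M = 2 * (((n : ℝ) - 0) * (1 / Real.log M)) := by ring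
  rw [e2]
  linarith

/-- the choice of the grid point -/
lemma grid_choice (T m y : ℕ) (hT : 1 ≤ T) (hm : 1 ≤ m) (hy : y ≤ T) :
    ∃ j : ℕ, j ≤ m ∧ j * T / m ≤ y ∧ (y : ℝ) - ((j * T / m : ℕ) : ℝ) ≤ (T : ℝ) / m + 1 := by
  have hm0 : (0 : ℝ) < m := by exact_mod_cast hm
  have hT0 : (0 : ℝ) < T := by exact_mod_cast hT
  refine ⟨y * m / T, ?_, ?_, ?_⟩
  · apply Nat.div_le_of_le_mul
    exact Nat.mul_le_mul_right m hy
  · apply Nat.div_le_of_le_mul
    rw [mul_comm m y]
    exact Nat.div_mul_le_self _ _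
  · have h1 : y * m < T * (y * m / T + 1) := Nat.lt_mul_div_succ _ hT
    have h2 : (y * m / T) * T < m * ((y * m / T) * T / m + 1) := Nat.lt_mul_div_succ _ hm
    have h1' : (y : ℝ) * m < T * (((y * m / T : ℕ) : ℝ) + 1) := by exact_mod_cast h1
    have h2' : ((y * m / T : ℕ) : ℝ) * T < m * ((((y * m / T) * T / m : ℕ) : ℝ) + 1) := by exact_mod_cast h2
    have h3 : ((y : ℝ) - (((y * m / T) * T / m : ℕ) : ℝ)) * m ≤ (T : ℝ) + m := by nlinarith
    have h4 : (T : ℝ) / m + 1 = ((T : ℝ) + m) / m := by field_simp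
    rw [h4, le_div_iff₀ hm0]
    exact h3

/-- **All lengths.** -/
theorem all_len (ε : ℝ) (hε : 0 < ε) (hε1 : ε ≤ 1) :
    ∃ W₀ : ℕ, 1 ≤ W₀ ∧ ∃ H : ℝ, 1 ≤ H ∧ ∀ g : ℕ → ℝ, (∀ p, |g p| ≤ 1) → MW g W₀ →
    ∀ᶠ N : ℕ in atTop, ∃ Bad : Finset ℕ, (#Bad : ℝ) ≤ ε * N ∧ ∀ A : ℕ, 3 ≤ A → A ≤ N → Odd A → A ∉ Bad →
      ε / 8 * N < A ∧ ∃ K : ℝ, 0 < K ∧ K ≤ H ∧ Tendsto (fun z : ℕ => C A z) atTop (𝓝 K) ∧
        ∀ y : ℕ, y ^ 2 ≤ N → |(P A y : ℝ) - K * L A y| ≤ ε / 16 * (Real.sqrt N / Real.log N) ∧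
          |R g A y| ≤ ε * (Real.sqrt N / Real.log N) := by
  obtain ⟨K₀, hK₀, hmean⟩ := R_mean
  obtain ⟨H₁, hH₁⟩ : ∃ H₁ : ℝ, H₁ = 8 * K₀ / ε := ⟨_, rfl⟩
  have hH₁1 : 8 ≤ H₁ := by
    rw [hH₁, le_div_iff₀ hε]
    nlinarith
  obtain ⟨m, hm⟩ : ∃ m : ℕ, m = ⌈256 * H₁ / ε⌉₊ + 1 := ⟨_, rfl⟩
  have hm1 : 1 ≤ m := by omega
  have hm0 : (0 : ℝ) < m := by exact_mod_cast hm1
  have hmge : 32 * H₁ / m ≤ ε / 8 := by
    rw [div_le_iff₀ hm0]
    have h1 : 256 * H₁ / ε ≤ m := (Nat.le_ceil _).trans (by rw [hm]; push_cast; linarith)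
    rw [div_le_iff₀ hε] at h1
    linarith
  obtain ⟨ε', hε'⟩ : ∃ ε' : ℝ, ε' = ε / (8 * m) := ⟨_, rfl⟩
  have hε'0 : 0 < ε' := by rw [hε']; positivity
  have hm1r : (1 : ℝ) ≤ m := by exact_mod_cast hm1
  have hε'8 : ε' ≤ ε / 8 := by
    rw [hε']
    apply div_le_div_of_nonneg_left hε.le (by norm_num)
    linarith
  obtain ⟨W₀, hW₀, hfix⟩ := fixedR (16 * m ^ 2) ε' hε'0
  refine ⟨W₀, hW₀, 8 * H₁, by linarith, fun g hg hz => ?_⟩
  obtain ⟨B, X0, hAA⟩ := Pool.Agent.Results.MP_8be758_nt.AlmostAllOddA.result 0 3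
  have hlogt : Tendsto (fun N : ℕ => Real.log N) atTop atTop := Real.tendsto_log_atTop.comp tendsto_natCast_atTop_atTop
  have ev1 := hlogt.eventually_ge_atTop (8 + 2048 * H₁ / ε + 64 / ε + 2 * Real.log (8 / ε))
  have ev2 : ∀ᶠ N : ℕ in atTop, 512 * H₁ / ε + X0 + 3 ≤ Real.sqrt N :=
    (Real.tendsto_sqrt_atTop.comp tendsto_natCast_atTop_atTop).eventually_ge_atTop _
  have ev3 : ∀ᶠ N : ℕ in atTop, 4 * Real.log N ^ B ≤ Real.sqrt N := by
    have k1 := (isLittleO_log_rpow_rpow_atTop (B : ℝ) (show (0 : ℝ) < 1 / 2 by norm_num)).bound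
      (show (0 : ℝ) < 1 / 4 by norm_num)
    filter_upwards [tendsto_natCast_atTop_atTop (R := ℝ) |>.eventually k1, eventually_ge_atTop 1] with N k2 hN
    rw [Real.rpow_natCast, Real.norm_of_nonneg (pow_nonneg (Real.log_natCast_nonneg N) _), ← Real.sqrt_eq_rpow,
      Real.norm_of_nonneg (Real.sqrt_nonneg _)] at k2
    linarith
  filter_upwards [hfix g hg hz, ev1, ev2, ev3, eventually_ge_atTop (X0 ^ 2 + 4 * m ^ 2 + 16)] with N hN hl1 hs hsB hNge
  have hN3 : 3 ≤ N := by nlinarith [Nat.zero_le (X0 ^ 2), Nat.zero_le (m ^ 2)]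
  have hN16 : 16 ≤ N := by nlinarith [Nat.zero_le (X0 ^ 2), Nat.zero_le (m ^ 2)]
  have hN3r : (3 : ℝ) ≤ N := by exact_mod_cast hN3
  have hN0 : (0 : ℝ) < N := by linarith
  have hq1 : 0 < 2048 * H₁ / ε := by positivity
  have hq2 : 0 < 64 / ε := by positivity
  have hq3 : 0 < Real.log (8 / ε) := Real.log_pos (by rw [lt_div_iff₀ hε]; linarith)
  have hl8 : 8 ≤ Real.log N := by linarith
  have hl0 : 0 < Real.log N := by linarith
  have hsN : 0 < Real.sqrt N := Real.sqrt_pos.2 hN0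
  obtain ⟨S, hS⟩ : ∃ S : ℝ, S = Real.sqrt N / Real.log N := ⟨_, rfl⟩
  have hS0 : 0 < S := by rw [hS]; positivity
  obtain ⟨T, hT⟩ : ∃ T : ℕ, T = Nat.sqrt N := ⟨_, rfl⟩
  have hTN : T ^ 2 ≤ N := by rw [hT]; exact Nat.sqrt_le' N
  have hT1 : N < (T + 1) ^ 2 := by rw [hT]; exact Nat.lt_succ_sqrt' N
  have hT4 : 4 ≤ T := by rw [hT, Nat.le_sqrt']; omega
  have hT0 : (0 : ℝ) < T := by exact_mod_cast (by omega : 0 < T)
  have hT4r : (4 : ℝ) ≤ T := by exact_mod_cast hT4
  have hTs : (T : ℝ) ≤ Real.sqrt N := by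
    apply Real.le_sqrt_of_sq_le
    exact_mod_cast hTN
  have hsT : Real.sqrt N ≤ T + 1 := by
    rw [Real.sqrt_le_left (by positivity)]
    exact_mod_cast hT1.le
  -- the theorem on the primes
  obtain ⟨Bad0, hBad0, hgood⟩ := hAA (T + 1) (by
      have h1 : (X0 : ℝ) ≤ ((T + 1 : ℕ) : ℝ) := by
        push_cast
        have : 0 < 512 * H₁ / ε := by positivity
        linarith
      exact_mod_cast h1) 0 N (by rw [Nat.cast_zero, pow_zero, mul_one]; positivity)
    (by
      push_cast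
      have h1 : Real.log ((T : ℝ) + 1) ≤ Real.log N := by
        apply Real.log_le_log (by positivity)
        have : (T + 1 : ℕ) ≤ N := by nlinarith
        exact_mod_cast this
      have h2 : 0 ≤ Real.log ((T : ℝ) + 1) := Real.log_nonneg (by linarith)
      have h3 : Real.log ((T : ℝ) + 1) ^ B ≤ Real.log N ^ B := pow_le_pow_left₀ h2 h1 B
      have h4 : (T : ℝ) + 1 ≤ 2 * Real.sqrt N := by linarith
      calc ((T : ℝ) + 1) * Real.log ((T : ℝ) + 1) ^ B ≤ (2 * Real.sqrt N) * (Real.sqrt N / 4) := by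
            apply mul_le_mul h4 (by linarith) (by positivity) (by positivity)
        _ = N / 2 := by
            have := Real.mul_self_sqrt hN0.le
            nlinarith
        _ ≤ N := by linarith)
    (by
      rw [pow_zero, mul_one]
      exact_mod_cast hT1.le)
  have hlx : Real.log N / 2 ≤ Real.log ((T + 1 : ℕ) : ℝ) := by
    rw [← Real.log_sqrt hN0.le]
    apply Real.log_le_log hsN
    push_cast
    exact hsT
  have hx3 : ((T + 1 : ℕ) : ℝ) / Real.log ((T + 1 : ℕ) : ℝ) ^ 3 ≤ 16 * Real.sqrt N / Real.log N ^ 3 := by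
    have h1 : (Real.log N / 2) ^ 3 ≤ Real.log ((T + 1 : ℕ) : ℝ) ^ 3 := pow_le_pow_left₀ (by linarith) hlx 3
    have h2 : ((T + 1 : ℕ) : ℝ) ≤ 2 * Real.sqrt N := by push_cast; linarith
    calc ((T + 1 : ℕ) : ℝ) / Real.log ((T + 1 : ℕ) : ℝ) ^ 3 ≤ (2 * Real.sqrt N) / (Real.log N / 2) ^ 3 :=
          div_le_div₀ (by positivity) h2 (by positivity) h1
      _ = 16 * Real.sqrt N / Real.log N ^ 3 := by field_simp; norm_num
  -- the exceptional sets
  obtain ⟨B1, hB1⟩ : ∃ B1 : Finset ℕ, B1 = Icc 1 ⌊ε / 8 * N⌋₊ := ⟨_, rfl⟩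
  obtain ⟨B2, hB2⟩ : ∃ B2 : Finset ℕ, B2 = (Icc 1 N).filter (fun A => H₁ * S < R (fun _ => 1) A T) := ⟨_, rfl⟩
  obtain ⟨B3, hB3⟩ : ∃ B3 : ℕ → Finset ℕ, B3 = fun j => (Icc 1 N).filter (fun A => ε' * (Real.sqrt N / Real.log N) < |R g A (j * T / m)|) := ⟨_, rfl⟩
  have c0 : (#Bad0 : ℝ) ≤ ε / 8 * N := by
    refine hBad0.trans ?_
    have h1 : (Real.log N / 2) ^ 3 ≤ Real.log ((T + 1 : ℕ) : ℝ) ^ 3 := pow_le_pow_left₀ (by linarith) hlx 3
    have h2 : 64 / ε ≤ Real.log N := by linarith [div_pos (show (0:ℝ) < 2048 * H₁ by positivity) hε]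
    have h3 : 8 / ε ≤ (Real.log N / 2) ^ 3 := by
      have h4 : 1 ≤ Real.log N / 2 := by linarith
      have h5 : Real.log N / 2 ≤ (Real.log N / 2) ^ 3 := le_self_pow₀ h4 (by norm_num)
      have h6 : 8 / ε ≤ Real.log N / 2 := by
        have : 64 / ε = 8 * (8 / ε) := by ring
        have h7 : 0 < 8 / ε := by positivity
        linarith
      exact h6.trans h5
    have h4 : 8 / ε ≤ Real.log ((T + 1 : ℕ) : ℝ) ^ 3 := h3.trans h1
    have h5 : 0 < Real.log ((T + 1 : ℕ) : ℝ) ^ 3 := lt_of_lt_of_le (by positivity) h4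
    rw [div_le_iff₀ h5]
    rw [div_le_iff₀ hε] at h4
    nlinarith
  have c1 : (#B1 : ℝ) ≤ ε / 8 * N := by
    rw [hB1, Nat.card_Icc, Nat.add_sub_cancel]
    exact Nat.floor_le (by positivity)
  have c2 : (#B2 : ℝ) ≤ ε / 8 * N := by
    have hRn : ∀ A ∈ Icc 1 N, 0 ≤ R (fun _ => 1) A T := by
      intro A _
      unfold R
      apply sum_nonneg
      intro n _
      split_ifs <;> norm_num
    have k1 := (markov (Icc 1 N) (fun A => R (fun _ => 1) A T) (H₁ * S) hRn).trans (hmean N hN3 T hTN)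
    rw [← hS, ← hB2] at k1
    have k2 : K₀ * N * S ≤ (ε / 8 * N) * (H₁ * S) := by
      rw [hH₁]
      apply le_of_eq
      field_simp
    exact le_of_mul_le_mul_right (k1.trans k2) (by positivity)
  have c3 : ∀ j ∈ Icc 1 m, (#(B3 j) : ℝ) ≤ ε' * N := by
    intro j hj
    rw [mem_Icc] at hj
    have k1 := grid_point N m j hm1 (by nlinarith [Nat.zero_le (X0 ^ 2)]) hj.1 hj.2
    rw [← hT] at k1
    rw [hB3]
    exact hN (j * T / m) k1.1 k1.2.1 k1.2.2
  refine ⟨Bad0 ∪ (B1 ∪ (B2 ∪ (Icc 1 m).biUnion B3)), ?_, ?_⟩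
  · have hcard : (#(Bad0 ∪ (B1 ∪ (B2 ∪ (Icc 1 m).biUnion B3))) : ℝ) ≤ #Bad0 + (#B1 + (#B2 + ∑ j ∈ Icc 1 m, (#(B3 j) : ℝ))) := by
      have k0 := card_union_le Bad0 (B1 ∪ (B2 ∪ (Icc 1 m).biUnion B3))
      have k1 := card_union_le B1 (B2 ∪ (Icc 1 m).biUnion B3)
      have k2 := card_union_le B2 ((Icc 1 m).biUnion B3)
      have k3 := card_biUnion_le (s := Icc 1 m) (t := B3)
      have k4 : #(Bad0 ∪ (B1 ∪ (B2 ∪ (Icc 1 m).biUnion B3))) ≤ #Bad0 + (#B1 + (#B2 + ∑ j ∈ Icc 1 m, #(B3 j))) := by omega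
      exact_mod_cast k4
    have hsum3 : ∑ j ∈ Icc 1 m, (#(B3 j) : ℝ) ≤ ε / 8 * N := by
      calc ∑ j ∈ Icc 1 m, (#(B3 j) : ℝ) ≤ ∑ _j ∈ Icc 1 m, ε' * N := sum_le_sum c3
        _ = ε / 8 * N := by
            rw [sum_const, Nat.card_Icc, Nat.add_sub_cancel, nsmul_eq_mul, hε']; field_simp
    have : 0 < ε * N := by positivity
    linarith
  · intro A hA3 hAN hodd hnot
    rw [mem_union, mem_union, mem_union, mem_biUnion] at hnot
    push Not at hnot
    obtain ⟨n0, n1, n2, n3⟩ := hnot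
    have hAmem : A ∈ Icc 1 N := mem_Icc.2 ⟨by omega, hAN⟩
    have hAη : ε / 8 * N < A := by
      rw [hB1, mem_Icc] at n1
      push Not at n1
      exact (Nat.floor_lt (by positivity)).1 (n1 (by omega))
    refine ⟨hAη, ?_⟩
    obtain ⟨K, hK0, hKlim, _, hKall⟩ := hgood A (by omega) (by omega) n0 hodd hA3
    have hA3r : (3 : ℝ) ≤ A := by exact_mod_cast hA3
    have hANr : (A : ℝ) ≤ N := by exact_mod_cast hAN
    have hlA : Real.log N / 2 ≤ Real.log A := by
      have h1 : Real.log (ε / 8 * N) ≤ Real.log A := Real.log_le_log (by positivity) hAη.le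
      rw [Real.log_mul (by positivity) hN0.ne'] at h1
      have h2 : Real.log (ε / 8) = - Real.log (8 / ε) := by rw [← Real.log_inv, inv_div]
      have h3 : 2 * Real.log (8 / ε) ≤ Real.log N := by linarith
      linarith
    -- `K ≤ 8 H₁`
    have hKall' : ∀ y : ℕ, y ≤ T → |(P A y : ℝ) - K * L A y| ≤ K * (16 * Real.sqrt N / Real.log N ^ 3) := by
      intro y hy
      have h1 := hKall y (by omega)
      have h2 : |(P A y : ℝ) - K * L A y| ≤ K * (((T + 1 : ℕ) : ℝ) / Real.log ((T + 1 : ℕ) : ℝ) ^ 3) := h1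
      exact h2.trans (mul_le_mul_of_nonneg_left hx3 hK0.le)
    have hPT : (P A T : ℝ) ≤ 2 * (H₁ * S) := by
      have h1 : R (fun _ => 1) A T ≤ H₁ * S := by
        by_contra hc
        apply n2
        rw [hB2, mem_filter]
        exact ⟨hAmem, not_le.1 hc⟩
      have h2 := (R_one A T).1
      have h3 : 1 ≤ H₁ * S := by
        have h4 : 1 ≤ S := by
          rw [hS, le_div_iff₀ hl0, one_mul]
          have := Real.log_le_sub_one_of_pos hsN
          rw [Real.log_sqrt hN0.le] at this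
          have h5 : 512 * H₁ / ε + X0 + 3 ≤ Real.sqrt N := hs
          -- log N ≤ 2 (√N - 1); use the fourth root
          have h6 := Real.log_le_sub_one_of_pos (Real.sqrt_pos.2 hsN)
          rw [Real.log_sqrt hsN.le, Real.log_sqrt hN0.le] at h6
          have h7 : Real.sqrt (Real.sqrt N) * Real.sqrt (Real.sqrt N) = Real.sqrt N := Real.mul_self_sqrt hsN.le
          nlinarith [sq_nonneg (Real.sqrt (Real.sqrt N) - 2)]
        nlinarith
      linarith
    have hK8 : K ≤ 8 * H₁ := by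
      have h1 := (abs_le.1 (hKall' T le_rfl)).1
      have h2 := L_ge A hA3 T (3 * N) (by
        have h3 : (T : ℝ) ^ 2 ≤ N := by exact_mod_cast hTN
        have h4 : (T : ℝ) ≤ (T : ℝ) ^ 2 := by nlinarith
        linarith)
      have h3 : Real.log (3 * N) ≤ 2 * Real.log N := by
        rw [Real.log_mul (by norm_num) hN0.ne']
        have : Real.log 3 ≤ Real.log N := Real.log_le_log (by norm_num) hN3r
        linarith
      have h4 : (T : ℝ) / Real.log N ≤ 2 * T / Real.log (3 * N) := by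
        rw [div_le_div_iff₀ hl0 (Real.log_pos (by linarith))]
        nlinarith
      have h5 : 16 * Real.sqrt N / Real.log N ^ 3 ≤ (T : ℝ) / Real.log N / 2 := by
        have h6 : Real.sqrt N ≤ 5 / 4 * T := by linarith
        have h7 : (64 : ℝ) ≤ Real.log N ^ 2 := by nlinarith
        rw [div_div, div_le_div_iff₀ (by positivity) (by positivity)]
        have h8 : 0 < Real.log N ^ 2 := by positivity
        calc 16 * Real.sqrt N * (Real.log N * 2) ≤ 16 * (5 / 4 * T) * (Real.log N * 2) := by gcongr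
          _ = 40 * (T * Real.log N) := by ring
          _ ≤ Real.log N ^ 2 * (T * Real.log N) := mul_le_mul_of_nonneg_right (by linarith) (by positivity)
          _ = T * Real.log N ^ 3 := by ring
      have h6 : K * ((T : ℝ) / Real.log N / 2) ≤ 2 * (H₁ * S) := by
        have h7 : K * ((T : ℝ) / Real.log N) ≤ K * L A T := mul_le_mul_of_nonneg_left (h4.trans h2) hK0.le
        have h8 : K * (16 * Real.sqrt N / Real.log N ^ 3) ≤ K * ((T : ℝ) / Real.log N / 2) := mul_le_mul_of_nonneg_left h5 hK0.le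
        have e : K * ((T : ℝ) / Real.log N) = 2 * (K * ((T : ℝ) / Real.log N / 2)) := by ring
        linarith
      have h7 : S ≤ 2 * ((T : ℝ) / Real.log N) := by
        rw [hS, ← mul_div_assoc]
        exact div_le_div_of_nonneg_right (by linarith) hl0.le
      have h8 : 0 < (T : ℝ) / Real.log N := by positivity
      have h9 : K * ((T : ℝ) / Real.log N) ≤ 8 * H₁ * ((T : ℝ) / Real.log N) := by
        have h10 : H₁ * S ≤ H₁ * (2 * ((T : ℝ) / Real.log N)) := mul_le_mul_of_nonneg_left h7 (by linarith)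
        linarith
      exact le_of_mul_le_mul_right h9 h8
    have herr : K * (16 * Real.sqrt N / Real.log N ^ 3) ≤ ε / 16 * S := by
      have h1 : 2048 * H₁ / ε ≤ Real.log N := by linarith
      have h2 : 2048 * H₁ ≤ ε * Real.log N ^ 2 := by
        rw [div_le_iff₀ hε] at h1
        nlinarith
      calc K * (16 * Real.sqrt N / Real.log N ^ 3) ≤ 8 * H₁ * (16 * Real.sqrt N / Real.log N ^ 3) :=
            mul_le_mul_of_nonneg_right hK8 (by positivity)
        _ = (2048 * H₁) * (Real.sqrt N / (16 * Real.log N ^ 3)) := by ring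
        _ ≤ (ε * Real.log N ^ 2) * (Real.sqrt N / (16 * Real.log N ^ 3)) := mul_le_mul_of_nonneg_right h2 (by positivity)
        _ = ε / 16 * S := by rw [hS]; field_simp
    refine ⟨K, hK0, hK8, ?_, fun y hy => ?_⟩
    · have h1 : Tendsto (fun z : ℕ => Pool.Agent.Results.MP_8be758_nt.AlmostAllOddA.partialProd A (z + 1)) atTop (𝓝 K) :=
        hKlim.comp (tendsto_add_atTop_nat 1)
      refine h1.congr (fun z => (C_partial A z).symm)
    · have hyT : y ≤ T := by rw [hT, Nat.le_sqrt']; exact hy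
      rw [← hS]
      have hP := (hKall' y hyT).trans herr
      refine ⟨hP, ?_⟩
      obtain ⟨j, hj1, hj2, hj3⟩ := grid_choice T m y (by omega) hm1 hyT
      obtain ⟨z, hz'⟩ : ∃ z : ℕ, z = j * T / m := ⟨_, rfl⟩
      rw [← hz'] at hj2 hj3
      have hRz : |R g A z| ≤ ε' * S := by
        rcases Nat.eq_zero_or_pos j with h0 | h0
        · rw [h0, zero_mul, Nat.zero_div] at hz'
          rw [hz']
          unfold R
          simp only [show Icc 1 0 = (∅ : Finset ℕ) from rfl, sum_empty, abs_zero]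
          positivity
        · by_contra hc
          apply n3 j (mem_Icc.2 ⟨h0, hj1⟩)
          rw [hB3]
          simp only [mem_filter]
          rw [← hz', ← hS]
          exact ⟨hAmem, not_le.1 hc⟩
      have hd := R_diff g hg A z y hj2
      have hPz := (hKall' z (hj2.trans hyT)).trans herr
      have hL := (L_diff A hA3 z y hj2).2
      have hL2 : L A y - L A z ≤ 4 * ((T : ℝ) / m + 1) / Real.log N := by
        refine hL.trans ?_
        have hyz : (0 : ℝ) ≤ (y : ℝ) - z := by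
          have : (z : ℝ) ≤ y := by exact_mod_cast hj2
          linarith
        calc 2 * ((y : ℝ) - z) / Real.log A ≤ 2 * ((T : ℝ) / m + 1) / (Real.log N / 2) :=
              div_le_div₀ (by positivity) (by linarith) (by linarith) hlA
          _ = 4 * ((T : ℝ) / m + 1) / Real.log N := by field_simp; norm_num
      have hKL : K * (L A y - L A z) ≤ ε / 8 * S + ε / 8 * S := by
        have h1 : K * (L A y - L A z) ≤ 8 * H₁ * (4 * ((T : ℝ) / m + 1) / Real.log N) := by
          apply mul_le_mul hK8 hL2 (L_diff A hA3 z y hj2).1 (by linarith)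
        have h2 : 8 * H₁ * (4 * ((T : ℝ) / m + 1) / Real.log N) = 32 * H₁ / m * ((T : ℝ) / Real.log N) + 32 * H₁ / Real.log N := by
          field_simp
          ring
        have h3 : 32 * H₁ / m * ((T : ℝ) / Real.log N) ≤ ε / 8 * S := by
          apply mul_le_mul hmge _ (by positivity) (by positivity)
          rw [hS]
          exact div_le_div_of_nonneg_right hTs hl0.le
        have h4 : 32 * H₁ / Real.log N ≤ ε / 8 * S := by
          rw [hS, ← mul_div_assoc]
          apply div_le_div_of_nonneg_right _ hl0.le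
          have h5 : 512 * H₁ / ε ≤ Real.sqrt N := by
            have : (0 : ℝ) ≤ X0 := Nat.cast_nonneg _
            linarith
          rw [div_le_iff₀ hε] at h5
          linarith
        linarith
      have a1 := abs_le.1 hP
      have a2 := abs_le.1 hPz
      have a3 : |R g A y| ≤ |R g A z| + |R g A y - R g A z| := by
        have := abs_add_le (R g A z) (R g A y - R g A z)
        rwa [add_sub_cancel] at this
      have h8 : ε' * S ≤ ε / 8 * S := mul_le_mul_of_nonneg_right hε'8 hS0.le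
      have h9 : 0 < ε * S := by positivity
      have e10 : K * (L A y - L A z) = K * L A y - K * L A z := by ring
      linarith [a1.1, a1.2, a2.1, a2.2]

end Pool.Agent.Helper64.EQ
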