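import Mathlib
import Pool.Agent.Helper64.EQ.C
import Pool.Graph.R_seed8.R460.SC.Fc

set_option autoImplicit false
set_option maxHeartbeats 4000000

/-! The prime values of `x ^ 2 + x + A` with `x` in one residue class, for almost all `A`. -/

namespace Pool.Agent.Helper64.EQ
open Finset Filter Topology
open Pool.Agent.W5h22.PV (GS)
open Pool.Agent.H373R2.T7 (nuB pz mem_pz)
open Pool.Agent.R460.SB (Sz Sz_prod Sz_bd nu_leg fv QS)
open Pool.Agent.R460.SQ (thp)
open Pool.Agent.R460.SC (GoodW fin_w)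

/-- mean value zero modulo a multiple implies mean value zero -/
lemma MW_of_dvd {g : ℕ → ℝ} (hg : ∀ p, |g p| ≤ 1) {V W : ℕ} (hW : 1 ≤ W) (hd : V ∣ W) (h : MW g W) : MW g V := by
  intro b hb
  have key : ∀ t : ℕ, GS g V b t = ∑ c ∈ (range W).filter (fun c => c ≡ b [MOD V]), GS g W c t := by
    intro t
    unfold GS
    rw [← sum_biUnion]
    · apply sum_congr _ (fun _ _ => rfl)
      ext p
      simp only [mem_filter, mem_Icc, mem_biUnion, mem_range]
      constructor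
      · rintro ⟨h1, h2, h3⟩
        exact ⟨p % W, ⟨Nat.mod_lt _ hW, ((Nat.mod_modEq p W).of_dvd hd).trans h3⟩, h1, h2, (Nat.mod_modEq p W).symm⟩
      · rintro ⟨c, ⟨_, h2⟩, h3, h4, h5⟩
        exact ⟨h3, h4, (h5.of_dvd hd).trans h2⟩
    · intro c hc d hd' hcd
      rw [mem_coe, mem_filter, mem_range] at hc hd'
      rw [Function.onFun, disjoint_left]
      intro p hp hp'
      rw [mem_filter] at hp hp'
      apply hcd
      have h1 : c ≡ d [MOD W] := hp.2.2.symm.trans hp'.2.2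
      exact Nat.ModEq.eq_of_lt_of_lt h1 hc.1 hd'.1
  have h1 : Tendsto (fun t : ℕ => ∑ c ∈ (range W).filter (fun c => c ≡ b [MOD V]), GS g W c t * Real.log t / t) atTop
      (𝓝 (∑ c ∈ (range W).filter (fun c => c ≡ b [MOD V]), (0 : ℝ))) := by
    apply tendsto_finsetSum
    intro c _
    by_cases hc : Nat.Coprime c W
    · exact h c hc
    · have hbd : ∀ t : ℕ, |GS g W c t| ≤ W := by
        intro t
        unfold GS
        have h2 : ((Icc 1 t).filter (fun p => p.Prime ∧ p ≡ c [MOD W])) ⊆ Icc 1 W := by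
          intro p hp
          rw [mem_filter, mem_Icc] at hp
          obtain ⟨⟨h1, _⟩, h2, h3⟩ := hp
          rw [mem_Icc]
          refine ⟨h1, ?_⟩
          have h4 : Nat.gcd p W = Nat.gcd c W := Nat.ModEq.gcd_eq h3
          by_contra h5
          apply hc
          unfold Nat.Coprime
          rw [← h4]
          have h6 : ¬ p ∣ W := fun h => h5 (Nat.le_of_dvd hW h)
          exact (Nat.Prime.coprime_iff_not_dvd h2).2 h6
        calc |∑ p ∈ (Icc 1 t).filter (fun p => p.Prime ∧ p ≡ c [MOD W]), g p|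
            ≤ ∑ p ∈ (Icc 1 t).filter (fun p => p.Prime ∧ p ≡ c [MOD W]), |g p| := abs_sum_le_sum_abs _ _
          _ ≤ ∑ _p ∈ (Icc 1 t).filter (fun p => p.Prime ∧ p ≡ c [MOD W]), (1 : ℝ) := sum_le_sum fun p _ => hg p
          _ = #((Icc 1 t).filter (fun p => p.Prime ∧ p ≡ c [MOD W])) := by simp
          _ ≤ #(Icc 1 W) := by exact_mod_cast card_le_card h2
          _ = W := by rw [Nat.card_Icc, Nat.add_sub_cancel]
      have h3 : Tendsto (fun t : ℕ => (W : ℝ) * (Real.log t / t)) atTop (𝓝 0) := by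
        have h4 : Tendsto (fun t : ℕ => Real.log (t : ℝ) / (t : ℝ)) atTop (𝓝 0) :=
          (Real.isLittleO_log_id_atTop.tendsto_div_nhds_zero).comp tendsto_natCast_atTop_atTop
        have := h4.const_mul (W : ℝ)
        rwa [mul_zero] at this
      apply squeeze_zero_norm' _ h3
      filter_upwards with t
      rw [Real.norm_eq_abs, mul_div_assoc, abs_mul, abs_of_nonneg (a := Real.log (t : ℝ) / t)
        (div_nonneg (Real.log_natCast_nonneg t) (Nat.cast_nonneg t))]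
      exact mul_le_mul_of_nonneg_right (hbd t) (div_nonneg (Real.log_natCast_nonneg t) (Nat.cast_nonneg t))
  rw [sum_const_zero] at h1
  refine h1.congr (fun t => ?_)
  rw [key t, sum_mul, sum_div]

/-- the singular series does not depend on the class -/
lemma Sz_eq (W A r s : ℕ) (hW : Even W) (hr : Nat.Coprime (r ^ 2 + r + A) W) (hs : Nat.Coprime (s ^ 2 + s + A) W) (z : ℕ) :
    Sz (-((W : ℤ) ^ 2)) (-((W : ℤ) * (2 * r + 1))) ((r ^ 2 + r + A : ℕ) : ℤ) z =
      Sz (-((W : ℤ) ^ 2)) (-((W : ℤ) * (2 * s + 1))) ((s ^ 2 + s + A : ℕ) : ℤ) z := by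
  rw [Sz_prod, Sz_prod]
  apply prod_congr rfl
  intro p hp
  rw [mem_pz] at hp
  have hzero : ∀ u : ℕ, Nat.Coprime (u ^ 2 + u + A) W → p ∣ W →
      nuB (QS (-((W : ℤ) ^ 2)) (-((W : ℤ) * (2 * u + 1))) ((u ^ 2 + u + A : ℕ) : ℤ)) p = 0 := by
    intro u hu hpW
    classical
    unfold nuB
    rw [card_eq_zero, filter_eq_empty_iff]
    intro m _ hm
    unfold QS at hm
    have h1 : (p : ℤ) ∣ (W : ℤ) := by exact_mod_cast hpW
    have h2 : (p : ℤ) ∣ (-((W : ℤ) ^ 2) * (m : ℤ) ^ 2 + -((W : ℤ) * (2 * u + 1)) * (m : ℤ)) := by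
      obtain ⟨k, hk⟩ := h1
      rw [hk]
      exact ⟨-((p : ℤ) * k ^ 2) * m ^ 2 - (k * (2 * u + 1)) * m, by ring⟩
    have h3 : (p : ℤ) ∣ ((u ^ 2 + u + A : ℕ) : ℤ) := (dvd_sub_left h2).1 hm
    have h4 : p ∣ u ^ 2 + u + A := by exact_mod_cast h3
    have h5 := Nat.dvd_gcd h4 hpW
    rw [hu] at h5
    exact hp.2.one_lt.ne' (Nat.dvd_one.1 h5)
  by_cases hpW : p ∣ W
  · rw [hzero r hr hpW, hzero s hs hpW]
  · have hp2 : p ≠ 2 := by
      rintro rfl
      exact hpW hW.two_dvd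
    have hpa : ¬ (p : ℤ) ∣ -((W : ℤ) ^ 2) := by
      intro h
      rw [dvd_neg] at h
      have h1 : (p : ℤ) ∣ (W : ℤ) := (Nat.prime_iff_prime_int.1 hp.2).dvd_of_dvd_pow h
      exact hpW (by exact_mod_cast h1)
    have e1 := nu_leg (-((W : ℤ) ^ 2)) (-((W : ℤ) * (2 * r + 1))) ((r ^ 2 + r + A : ℕ) : ℤ) hp.2 hp2 hpa
    have e2 := nu_leg (-((W : ℤ) ^ 2)) (-((W : ℤ) * (2 * s + 1))) ((s ^ 2 + s + A : ℕ) : ℤ) hp.2 hp2 hpa
    have e3 : (4 * -((W : ℤ) ^ 2) * ((r ^ 2 + r + A : ℕ) : ℤ) + (-((W : ℤ) * (2 * r + 1))) ^ 2) =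
        (4 * -((W : ℤ) ^ 2) * ((s ^ 2 + s + A : ℕ) : ℤ) + (-((W : ℤ) * (2 * s + 1))) ^ 2) := by
      push_cast
      ring
    rw [e3] at e1
    have e4 := e1.trans e2.symm
    have e5 : nuB (QS (-((W : ℤ) ^ 2)) (-((W : ℤ) * (2 * r + 1))) ((r ^ 2 + r + A : ℕ) : ℤ)) p =
        nuB (QS (-((W : ℤ) ^ 2)) (-((W : ℤ) * (2 * s + 1))) ((s ^ 2 + s + A : ℕ) : ℤ)) p := by exact_mod_cast e4
    rw [e5]

/-- the sum of the logarithms of the primes `x ^ 2 + x + A`, `x ≤ y`, `x ≡ r (mod W)` -/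
noncomputable def TH (W r A y : ℕ) : ℝ := ∑ x ∈ (Icc 1 y).filter (fun x => x % W = r), thp (x ^ 2 + x + A)

lemma thp_nonneg (l : ℕ) : 0 ≤ thp l := by
  unfold thp
  split_ifs
  · exact Real.log_natCast_nonneg l
  · exact le_rfl

lemma thp_le {l : ℕ} {M : ℝ} (hM : 1 ≤ M) (h : (l : ℝ) ≤ M) : thp l ≤ Real.log M := by
  unfold thp
  split_ifs with hp
  · exact Real.log_le_log (by exact_mod_cast hp.pos) h
  · exact Real.log_nonneg hM

/-- the sum over the class as a sum over the quotient -/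
lemma TH_eq (W r A y : ℕ) (hr : r < W) (M : ℝ) (hM : 1 ≤ M) (hA : ((r ^ 2 + r + A : ℕ) : ℝ) ≤ M) :
    |TH W r A y - ∑ m ∈ Icc 1 ((y - r) / W), thp ((W * m + r) ^ 2 + (W * m + r) + A)| ≤ Real.log M := by
  have hW : 0 < W := by omega
  obtain ⟨F, hF⟩ : ∃ F, F = (Icc 1 y).filter (fun x => x % W = r) := ⟨_, rfl⟩
  obtain ⟨I, hI⟩ : ∃ I, I = (Icc 1 ((y - r) / W)).image (fun m => W * m + r) := ⟨_, rfl⟩
  have h1 : ∑ m ∈ Icc 1 ((y - r) / W), thp ((W * m + r) ^ 2 + (W * m + r) + A) = ∑ x ∈ I, thp (x ^ 2 + x + A) := by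
    rw [hI, sum_image]
    intro m _ n _ h
    simp only at h
    have h2 : W * m = W * n := by omega
    exact Nat.eq_of_mul_eq_mul_left hW h2
  have hIF : I ⊆ F := by
    intro x hx
    rw [hI, mem_image] at hx
    obtain ⟨m, hm, rfl⟩ := hx
    rw [mem_Icc] at hm
    rw [hF, mem_filter, mem_Icc]
    have h3 : W * m ≤ y - r := by
      calc W * m ≤ W * ((y - r) / W) := Nat.mul_le_mul_left W hm.2
        _ ≤ y - r := Nat.mul_div_le _ _
    have h4 : W ≤ W * m := Nat.le_mul_of_pos_right W (by omega)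
    refine ⟨⟨by omega, by omega⟩, ?_⟩
    rw [Nat.mul_add_mod, Nat.mod_eq_of_lt hr]
  have hFI : F \ I ⊆ {r} := by
    intro x hx
    rw [Finset.mem_sdiff, hF, mem_filter, mem_Icc] at hx
    obtain ⟨⟨⟨h2, h3⟩, h4⟩, h5⟩ := hx
    rw [mem_singleton]
    by_contra hne
    apply h5
    rw [hI, mem_image]
    have h6 := Nat.div_add_mod x W
    rw [h4] at h6
    refine ⟨x / W, ?_, h6⟩
    rw [mem_Icc]
    have h7 : x / W ≠ 0 := by
      intro h0
      rw [h0, mul_zero] at h6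
      omega
    refine ⟨Nat.pos_of_ne_zero h7, ?_⟩
    rw [Nat.le_div_iff_mul_le hW, mul_comm]
    omega
  have h2 : TH W r A y = ∑ x ∈ I, thp (x ^ 2 + x + A) + ∑ x ∈ F \ I, thp (x ^ 2 + x + A) := by
    unfold TH
    rw [← hF, ← sum_sdiff hIF, add_comm]
  rw [h1, h2, add_sub_cancel_left, abs_of_nonneg (sum_nonneg fun _ _ => thp_nonneg _)]
  calc ∑ x ∈ F \ I, thp (x ^ 2 + x + A) ≤ ∑ x ∈ ({r} : Finset ℕ), thp (x ^ 2 + x + A) :=
        sum_le_sum_of_subset_of_nonneg hFI (fun _ _ _ => thp_nonneg _)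
    _ = thp (r ^ 2 + r + A) := sum_singleton _ _
    _ ≤ Real.log M := thp_le hM hA

/-- the theorem of the starting library in one residue class -/
lemma theta_one (W r : ℕ) (hW : 1 ≤ W) (ε : ℝ) (hε : 0 < ε) :
    ∀ᶠ N : ℕ in atTop, ∃ Bad : Finset ℕ, (#Bad : ℝ) ≤ ε * N ∧ ∀ A : ℕ, A ≤ N → A ∉ Bad →
      ∃ S : ℝ, Tendsto (fun z : ℕ => Sz (-((W : ℤ) ^ 2)) (-((W : ℤ) * (2 * r + 1))) ((r ^ 2 + r + A : ℕ) : ℤ) z) atTop (𝓝 S) ∧
        ∀ M : ℕ, M ^ 2 ≤ N → |∑ m ∈ Icc 1 M, thp ((W * m + r) ^ 2 + (W * m + r) + A) - S * M| ≤ ε * Real.sqrt N := by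
  classical
  have ha : ((W : ℤ) ^ 2) ≠ 0 := by
    have : (W : ℤ) ≠ 0 := by exact_mod_cast (by omega : W ≠ 0)
    positivity
  obtain ⟨N₀, h0⟩ := fin_w (a := (W : ℤ) ^ 2) (b := (W : ℤ) * (2 * r + 1)) ha (1 / 4) (by norm_num) 1 1 0
  have hlogt : Tendsto (fun N : ℕ => Real.log N) atTop atTop := Real.tendsto_log_atTop.comp tendsto_natCast_atTop_atTop
  filter_upwards [hlogt.eventually_ge_atTop (2 / ε + 1), eventually_ge_atTop (N₀ + r ^ 2 + r + 1)] with N hl hN
  have hN1 : 1 ≤ N := by omega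
  have hN0 : (0 : ℝ) < N := by exact_mod_cast hN1
  have hp : 0 < 2 / ε := by positivity
  have hl0 : 0 < Real.log N := by linarith
  have hl2 : Real.log N ≤ Real.log ((2 * N : ℕ) : ℝ) := Real.log_le_log hN0 (by push_cast; linarith)
  have hl20 : 0 < Real.log ((2 * N : ℕ) : ℝ) := by linarith
  have h1 := h0 (2 * N) (by omega) 1 le_rfl (by
      rw [Nat.cast_one]
      apply Real.one_le_rpow
      · exact_mod_cast (by omega : 1 ≤ 2 * N)
      · norm_num) (by simp) 0 (by simp)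
  rw [(Nat.cast_one : ((1 : ℕ) : ℝ) = 1), one_mul, pow_one] at h1
  obtain ⟨B, hB⟩ : ∃ B, B = (Icc (-((2 * N : ℕ) : ℤ)) ((2 * N : ℕ) : ℤ)).filter
    (fun c : ℤ => c ≡ 0 [ZMOD ((1 : ℕ) : ℤ)] ∧ ¬ GoodW ((W : ℤ) ^ 2) ((W : ℤ) * (2 * r + 1)) 1 (2 * N) c) := ⟨_, rfl⟩
  rw [← hB] at h1
  refine ⟨(Icc 0 N).filter (fun A : ℕ => ((r ^ 2 + r + A : ℕ) : ℤ) ∈ B), ?_, fun A hA hAB => ?_⟩
  · have h2 : #((Icc 0 N).filter (fun A : ℕ => ((r ^ 2 + r + A : ℕ) : ℤ) ∈ B)) ≤ #B := by
      apply card_le_card_of_injOn (fun A : ℕ => ((r ^ 2 + r + A : ℕ) : ℤ))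
      · intro A hA
        rw [mem_coe, mem_filter] at hA
        exact hA.2
      · intro a _ b _ h
        simp only at h
        have h3 : r ^ 2 + r + a = r ^ 2 + r + b := by exact_mod_cast h
        omega
    have h3 : (#((Icc 0 N).filter (fun A : ℕ => ((r ^ 2 + r + A : ℕ) : ℤ) ∈ B)) : ℝ) ≤ #B := by exact_mod_cast h2
    refine h3.trans (h1.trans ?_)
    rw [div_le_iff₀ hl20]
    push_cast
    have h4 : 2 ≤ ε * Real.log N := by
      have h5 : 2 / ε ≤ Real.log N := by linarith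
      rw [div_le_iff₀ hε] at h5
      linarith
    push_cast at hl2
    have h5 : 2 ≤ ε * Real.log (2 * N) := h4.trans (mul_le_mul_of_nonneg_left hl2 hε.le)
    calc 2 * (N : ℝ) ≤ (ε * Real.log (2 * N)) * N := mul_le_mul_of_nonneg_right h5 hN0.le
      _ = _ := by ring
  · have hg : GoodW ((W : ℤ) ^ 2) ((W : ℤ) * (2 * r + 1)) 1 (2 * N) ((r ^ 2 + r + A : ℕ) : ℤ) := by
      by_contra hc
      apply hAB
      rw [mem_filter, mem_Icc]
      refine ⟨⟨Nat.zero_le _, hA⟩, ?_⟩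
      rw [hB, mem_filter, mem_Icc]
      have hv : r ^ 2 + r + A ≤ 2 * N := by omega
      refine ⟨⟨(neg_nonpos.2 (Int.natCast_nonneg _)).trans (Int.natCast_nonneg _), by exact_mod_cast hv⟩, ?_, hc⟩
      rw [Nat.cast_one]
      exact Int.modEq_one
    obtain ⟨-, S, hS, hall⟩ := hg
    refine ⟨S, hS, fun M hM => ?_⟩
    have h5 := hall M (by omega)
    have e : ∀ m : ℕ, (fv (-((W : ℤ) ^ 2)) (-((W : ℤ) * (2 * r + 1))) ((r ^ 2 + r + A : ℕ) : ℤ) m).natAbs =
        (W * m + r) ^ 2 + (W * m + r) + A := by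
      intro m
      unfold fv
      have e2 : ((r ^ 2 + r + A : ℕ) : ℤ) - (-((W : ℤ) ^ 2) * (m : ℤ) ^ 2 + -((W : ℤ) * (2 * r + 1)) * (m : ℤ)) =
          (((W * m + r) ^ 2 + (W * m + r) + A : ℕ) : ℤ) := by
        push_cast
        ring
      rw [e2, Int.natAbs_natCast]
    simp only [e] at h5
    refine h5.trans ?_
    rw [pow_one, div_le_iff₀ hl20]
    push_cast
    rw [Real.sqrt_mul (by norm_num)]
    have hs2 : Real.sqrt 2 ≤ 2 := by
      rw [Real.sqrt_le_left (by norm_num)]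
      norm_num
    have h4 : 2 ≤ ε * Real.log (2 * N) := by
      have h5 : 2 / ε ≤ Real.log N := by linarith
      rw [div_le_iff₀ hε] at h5
      push_cast at hl2
      nlinarith
    have hs0 := Real.sqrt_nonneg (N : ℝ)
    nlinarith

/-- **One modulus.** The main term is the same for all the admissible classes. -/
theorem theta_all (W : ℕ) (hW : 1 ≤ W) (hWe : Even W) (ε : ℝ) (hε : 0 < ε) :
    ∀ᶠ N : ℕ in atTop, ∃ Bad : Finset ℕ, (#Bad : ℝ) ≤ ε * N ∧ ∀ A : ℕ, A ≤ N → A ∉ Bad →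
      ∃ S : ℝ, 0 ≤ S ∧ ∀ r : ℕ, r < W → Nat.Coprime (r ^ 2 + r + A) W → ∀ y : ℕ, y ^ 2 ≤ N →
        |TH W r A y - S * y / W| ≤ ε * Real.sqrt N := by
  classical
  have hW0 : (0 : ℝ) < W := by exact_mod_cast hW
  obtain ⟨ε₁, hε₁⟩ : ∃ ε₁ : ℝ, ε₁ = min 1 (ε / (4 * W)) := ⟨_, rfl⟩
  have hε₁0 : 0 < ε₁ := by rw [hε₁]; positivity
  have hε₁1 : ε₁ ≤ 1 := by rw [hε₁]; exact min_le_left _ _
  have hε₁W : ε₁ ≤ ε / (4 * W) := by rw [hε₁]; exact min_le_right _ _
  have hall : ∀ᶠ N : ℕ in atTop, ∀ r ∈ range W, ∃ Bad : Finset ℕ, (#Bad : ℝ) ≤ ε₁ * N ∧ ∀ A : ℕ, A ≤ N → A ∉ Bad →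
      ∃ S : ℝ, Tendsto (fun z : ℕ => Sz (-((W : ℤ) ^ 2)) (-((W : ℤ) * (2 * r + 1))) ((r ^ 2 + r + A : ℕ) : ℤ) z) atTop (𝓝 S) ∧
        ∀ M : ℕ, M ^ 2 ≤ N → |∑ m ∈ Icc 1 M, thp ((W * m + r) ^ 2 + (W * m + r) + A) - S * M| ≤ ε₁ * Real.sqrt N := by
    rw [eventually_all_finset]
    intro r _
    exact theta_one W r hW ε₁ hε₁0
  have hlog : ∀ᶠ N : ℕ in atTop, 3 * Real.log (3 * N) + 8 * W ≤ ε / 2 * Real.sqrt N := by
    have k1 := (isLittleO_log_rpow_atTop (show (0 : ℝ) < 1 / 2 by norm_num)).bound (show 0 < ε / 12 by positivity)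
    have k2 : ∀ᶠ N : ℕ in atTop, (3 * Real.log 3 + 8 * W) / (ε / 4) ≤ Real.sqrt N :=
      (Real.tendsto_sqrt_atTop.comp tendsto_natCast_atTop_atTop).eventually_ge_atTop _
    filter_upwards [tendsto_natCast_atTop_atTop (R := ℝ) |>.eventually k1, k2, eventually_ge_atTop 1] with N k1 k2 k3
    rw [Real.norm_of_nonneg (Real.log_natCast_nonneg N), Real.norm_of_nonneg (by positivity), ← Real.sqrt_eq_rpow] at k1
    rw [div_le_iff₀ (by positivity)] at k2
    have hN0 : (0 : ℝ) < N := by exact_mod_cast k3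
    rw [Real.log_mul (by norm_num) hN0.ne']
    linarith
  filter_upwards [hall, hlog, eventually_ge_atTop (W ^ 2 + W + 16 * W ^ 2)] with N hN hlN hNW
  choose! Bad hBad hgood using hN
  refine ⟨(range W).biUnion Bad, ?_, fun A hA hAB => ?_⟩
  · have k3 := card_biUnion_le (s := range W) (t := Bad)
    have k4 : (#((range W).biUnion Bad) : ℝ) ≤ ∑ r ∈ range W, (#(Bad r) : ℝ) := by exact_mod_cast k3
    refine k4.trans ?_
    calc ∑ r ∈ range W, (#(Bad r) : ℝ) ≤ ∑ _r ∈ range W, ε₁ * N := sum_le_sum hBad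
      _ = W * (ε₁ * N) := by rw [sum_const, card_range, nsmul_eq_mul]
      _ ≤ W * (ε / (4 * W) * N) := by gcongr
      _ = ε / 4 * N := by field_simp
      _ ≤ ε * N := by
          have : (0 : ℝ) ≤ N := Nat.cast_nonneg _
          nlinarith
  · have hN1 : 1 ≤ N := by nlinarith
    have hN0 : (0 : ℝ) < N := by exact_mod_cast hN1
    have hsN : 0 < Real.sqrt N := Real.sqrt_pos.2 hN0
    -- one constant
    have hex : ∃ S : ℝ, 0 ≤ S ∧ S ≤ Real.log (3 * N) + 4 * W ∧ ∀ r : ℕ, r < W → Nat.Coprime (r ^ 2 + r + A) W →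
        ∀ M : ℕ, M ^ 2 ≤ N → |∑ m ∈ Icc 1 M, thp ((W * m + r) ^ 2 + (W * m + r) + A) - S * M| ≤ ε₁ * Real.sqrt N := by
      by_cases hr : ∃ r : ℕ, r < W ∧ Nat.Coprime (r ^ 2 + r + A) W
      · obtain ⟨r, hrW, hrc⟩ := hr
        have hnot : ∀ s : ℕ, s < W → A ∉ Bad s := by
          intro s hs h
          exact hAB (mem_biUnion.2 ⟨s, mem_range.2 hs, h⟩)
        obtain ⟨S, hS, hSall⟩ := hgood r (mem_range.2 hrW) A hA (hnot r hrW)
        have hS0 : 0 ≤ S := ge_of_tendsto' hS (fun z => (Sz_bd _ _ _ z).1)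
        refine ⟨S, hS0, ?_, fun s hsW hsc M hM => ?_⟩
        · -- the trivial bound
          obtain ⟨M, hMd⟩ : ∃ M : ℕ, M = Nat.sqrt N / W - 1 := ⟨_, rfl⟩
          have hMle : M ^ 2 ≤ N := by
            have h1 : M ≤ Nat.sqrt N := by
              have := Nat.div_le_self (Nat.sqrt N) W
              omega
            exact (Nat.pow_le_pow_left h1 2).trans (Nat.sqrt_le' N)
          have hT : 4 * W ≤ Nat.sqrt N := by
            rw [Nat.le_sqrt']
            nlinarith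
          have hM5 : 4 ≤ Nat.sqrt N / W := by
            rw [Nat.le_div_iff_mul_le hW]
            exact hT
          have hM4 : 3 ≤ M := by omega
          have hMs : M + 1 = Nat.sqrt N / W := by omega
          have hWM : W * (M + 1) ≤ Nat.sqrt N := by
            rw [hMs]
            exact Nat.mul_div_le _ _
          have hTN := Nat.sqrt_le' N
          have hM0 : (0 : ℝ) < M := by exact_mod_cast (by omega : 0 < M)
          have h1 := (abs_le.1 (hSall M hMle)).1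
          have h2 : ∑ m ∈ Icc 1 M, thp ((W * m + r) ^ 2 + (W * m + r) + A) ≤ ∑ _m ∈ Icc 1 M, Real.log (3 * N) := by
            apply sum_le_sum
            intro m hm
            rw [mem_Icc] at hm
            apply thp_le
            · have : (1 : ℝ) ≤ N := by exact_mod_cast hN1
              linarith
            · have h5 : W * m + r ≤ Nat.sqrt N := by
                have h6 : W * m ≤ W * M := Nat.mul_le_mul_left W hm.2
                have h7 : W * (M + 1) = W * M + W := by ring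
                omega
              have h6 : (W * m + r) ^ 2 ≤ Nat.sqrt N ^ 2 := Nat.pow_le_pow_left h5 2
              have h7 : Nat.sqrt N ≤ Nat.sqrt N ^ 2 := Nat.le_self_pow (by norm_num) _
              exact_mod_cast (by omega : (W * m + r) ^ 2 + (W * m + r) + A ≤ 3 * N)
          rw [sum_const, Nat.card_Icc, Nat.add_sub_cancel, nsmul_eq_mul] at h2
          have h3 : Real.sqrt N ≤ 2 * W * M := by
            have h4 : N < (Nat.sqrt N + 1) ^ 2 := Nat.lt_succ_sqrt' N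
            have h5 : Real.sqrt N ≤ Nat.sqrt N + 1 := by
              rw [Real.sqrt_le_left (by positivity)]
              exact_mod_cast h4.le
            have h6 : Nat.sqrt N < W * (Nat.sqrt N / W + 1) := Nat.lt_mul_div_succ _ hW
            rw [← hMs] at h6
            have h7 : Nat.sqrt N + 1 ≤ W * (2 * M) := by
              have h8 : W * (M + 1 + 1) ≤ W * (2 * M) := Nat.mul_le_mul_left W (by omega)
              omega
            have h8 : (Nat.sqrt N : ℝ) + 1 ≤ W * (2 * M) := by exact_mod_cast h7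
            linarith
          have h4 : S * M ≤ (Real.log (3 * N) + 2 * W) * M := by
            have h5 : ε₁ * Real.sqrt N ≤ Real.sqrt N := by nlinarith
            nlinarith
          have h5 := le_of_mul_le_mul_right h4 hM0
          linarith
        · obtain ⟨S', hS', hSall'⟩ := hgood s (mem_range.2 hsW) A hA (hnot s hsW)
          have hSS : S' = S := by
            apply tendsto_nhds_unique hS'
            refine hS.congr (fun z => ?_)
            exact Sz_eq W A r s hWe hrc hsc z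
          rw [← hSS]
          exact hSall' M hM
      · refine ⟨0, le_rfl, ?_, fun r hrW hrc => absurd ⟨r, hrW, hrc⟩ hr⟩
        have : 0 ≤ Real.log (3 * N) := Real.log_nonneg (by
          have : (1 : ℝ) ≤ N := by exact_mod_cast hN1
          linarith)
        positivity
    obtain ⟨S, hS0, hS1, hSall⟩ := hex
    refine ⟨S, hS0, fun r hrW hrc y hy => ?_⟩
    obtain ⟨M, hM⟩ : ∃ M : ℕ, M = (y - r) / W := ⟨_, rfl⟩
    have hMy : M ≤ y := by
      rw [hM]
      exact (Nat.div_le_self _ _).trans (Nat.sub_le _ _)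
    have h1 := hSall r hrW hrc M ((Nat.pow_le_pow_left hMy 2).trans hy)
    have hN1r : (1 : ℝ) ≤ N := by exact_mod_cast hN1
    have h2 := TH_eq W r A y hrW (3 * N) (by linarith) (by
      have h6 : r ^ 2 ≤ W ^ 2 := Nat.pow_le_pow_left hrW.le 2
      exact_mod_cast (by nlinarith : r ^ 2 + r + A ≤ 3 * N))
    rw [← hM] at h2
    have h3 : W * M ≤ y := by
      rw [hM]
      exact (Nat.mul_div_le _ _).trans (Nat.sub_le _ _)
    have h4 : y ≤ W * M + 2 * W := by
      have h5 : y - r < W * ((y - r) / W + 1) := Nat.lt_mul_div_succ _ hW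
      rw [← hM] at h5
      have h6 : W * (M + 1) = W * M + W := by ring
      omega
    have h3' : (W : ℝ) * M ≤ y := by exact_mod_cast h3
    have h4' : (y : ℝ) ≤ W * M + 2 * W := by exact_mod_cast h4
    have h5 : |S * M - S * y / W| ≤ 2 * S := by
      have e : S * M - S * y / W = - (S * ((y - W * M) / W)) := by
        field_simp
        ring
      rw [e, abs_neg, abs_of_nonneg (mul_nonneg hS0 (div_nonneg (by linarith) hW0.le))]
      have h7 : ((y : ℝ) - W * M) / W ≤ 2 := by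
        rw [div_le_iff₀ hW0]
        linarith
      nlinarith
    have h6 : ε₁ * Real.sqrt N ≤ ε / 4 * Real.sqrt N := by
      apply mul_le_mul_of_nonneg_right _ hsN.le
      refine hε₁W.trans ?_
      apply div_le_div_of_nonneg_left hε.le (by norm_num)
      have : (1 : ℝ) ≤ W := by exact_mod_cast hW
      linarith
    have e : TH W r A y - S * y / W = (TH W r A y - ∑ m ∈ Icc 1 M, thp ((W * m + r) ^ 2 + (W * m + r) + A)) +
        (∑ m ∈ Icc 1 M, thp ((W * m + r) ^ 2 + (W * m + r) + A) - S * M) + (S * M - S * y / W) := by ring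
    rw [e]
    refine (abs_add_three _ _ _).trans ?_
    have h7 : 0 ≤ ε / 4 * Real.sqrt N := by positivity
    linarith

end Pool.Agent.Helper64.EQ
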