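import Mathlib
import Pool.Agent.Helper64.EQ.D

set_option autoImplicit false
set_option maxHeartbeats 4000000

/-! Primes `x ^ 2 + x + A` with bounded weights which have mean values in the residue classes modulo one number. -/

namespace Pool.Agent.Helper64.EQ
open Finset Filter Topology
open Pool.Agent.W5h22.PV (GS mean primes_le)
open Pool.Agent.R460.SQ (thp)
open Pool.Agent.Helper64.CF (P L C)

lemma mean_bd (f : ℕ → ℝ) (hf : ∀ p : ℕ, p.Prime → |f p| ≤ 1) (W b t : ℕ) : |mean f W b t| ≤ 1 := by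
  unfold mean
  rw [abs_div, Nat.abs_cast]
  apply div_le_one_of_le₀ _ (Nat.cast_nonneg _)
  calc |∑ p ∈ (Icc 1 t).filter (fun p => p.Prime ∧ p ≡ b [MOD W]), f p|
      ≤ ∑ p ∈ (Icc 1 t).filter (fun p => p.Prime ∧ p ≡ b [MOD W]), |f p| := abs_sum_le_sum_abs _ _
    _ ≤ ∑ _p ∈ (Icc 1 t).filter (fun p => p.Prime ∧ p ≡ b [MOD W]), (1 : ℝ) :=
        sum_le_sum fun p hp => hf p (mem_filter.1 hp).2.1
    _ = _ := by simp

lemma delta_bd (f δ : ℕ → ℝ) (hf : ∀ p : ℕ, p.Prime → |f p| ≤ 1) (W : ℕ)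
    (h : ∀ b : ℕ, Nat.Coprime b W → Tendsto (mean f W b) atTop (𝓝 (δ b))) (b : ℕ) (hb : Nat.Coprime b W) : |δ b| ≤ 1 :=
  le_of_tendsto (h b hb).abs (Eventually.of_forall fun t => mean_bd f hf W b t)

lemma delta_congr (f δ : ℕ → ℝ) (W : ℕ)
    (h : ∀ b : ℕ, Nat.Coprime b W → Tendsto (mean f W b) atTop (𝓝 (δ b))) (b c : ℕ) (hb : Nat.Coprime b W)
    (hbc : b ≡ c [MOD W]) : δ b = δ c := by
  have hc : Nat.Coprime c W := by
    unfold Nat.Coprime
    rw [← Nat.ModEq.gcd_eq hbc]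
    exact hb
  apply tendsto_nhds_unique (h b hb)
  refine (h c hc).congr (fun t => ?_)
  unfold mean
  have e : (Icc 1 t).filter (fun p => p.Prime ∧ p ≡ c [MOD W]) = (Icc 1 t).filter (fun p => p.Prime ∧ p ≡ b [MOD W]) := by
    apply filter_congr
    intro p _
    constructor
    · rintro ⟨h1, h2⟩
      exact ⟨h1, h2.trans hbc.symm⟩
    · rintro ⟨h1, h2⟩
      exact ⟨h1, h2.trans hbc⟩
  rw [e]

/-- the weight of mean value zero -/
noncomputable def gw (f δ : ℕ → ℝ) (W p : ℕ) : ℝ := if p.Prime ∧ Nat.Coprime p W then (f p - δ p) / 2 else 0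

lemma gw_bd (f δ : ℕ → ℝ) (hf : ∀ p : ℕ, p.Prime → |f p| ≤ 1) (W : ℕ)
    (h : ∀ b : ℕ, Nat.Coprime b W → Tendsto (mean f W b) atTop (𝓝 (δ b))) (p : ℕ) : |gw f δ W p| ≤ 1 := by
  unfold gw
  split_ifs with hp
  · rw [abs_div, abs_of_pos (by norm_num : (0 : ℝ) < 2), div_le_one (by norm_num)]
    calc |f p - δ p| ≤ |f p| + |δ p| := abs_sub _ _
      _ ≤ 1 + 1 := add_le_add (hf p hp.1) (delta_bd f δ hf W h p hp.2)
      _ = 2 := by norm_num
  · rw [abs_zero]; norm_num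

lemma gw_MW (f δ : ℕ → ℝ) (W : ℕ)
    (h : ∀ b : ℕ, Nat.Coprime b W → Tendsto (mean f W b) atTop (𝓝 (δ b))) : MW (gw f δ W) W := by
  obtain ⟨K, hK, hpr⟩ := primes_le
  intro b hb
  have h1 := h b hb
  have h2 : Tendsto (fun t : ℕ => K / 2 * |mean f W b t - δ b|) atTop (𝓝 0) := by
    have h3 : Tendsto (fun t : ℕ => |mean f W b t - δ b|) atTop (𝓝 0) := by
      have := (h1.sub_const (δ b)).abs
      rwa [sub_self, abs_zero] at this
    have := h3.const_mul (K / 2)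
    rwa [mul_zero] at this
  apply squeeze_zero_norm' _ h2
  filter_upwards [eventually_ge_atTop 3] with t ht
  have ht3 : (3 : ℝ) ≤ t := by exact_mod_cast ht
  have hlt : 0 < Real.log t := Real.log_pos (by linarith)
  obtain ⟨n, hn⟩ : ∃ n : ℝ, n = (#((Icc 1 t).filter (fun p => p.Prime ∧ p ≡ b [MOD W])) : ℝ) := ⟨_, rfl⟩
  have hn0 : 0 ≤ n := by rw [hn]; exact Nat.cast_nonneg _
  have hnK : n ≤ K * (t / Real.log t) := by
    refine le_trans ?_ (hpr t (by omega))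
    rw [hn]
    have : (Icc 1 t).filter (fun p => p.Prime ∧ p ≡ b [MOD W]) ⊆ (Icc 1 t).filter Nat.Prime := by
      intro p hp
      rw [mem_filter] at hp ⊢
      exact ⟨hp.1, hp.2.1⟩
    exact_mod_cast card_le_card this
  have e0 : GS (gw f δ W) W b t = ∑ p ∈ (Icc 1 t).filter (fun p => p.Prime ∧ p ≡ b [MOD W]), (f p - δ b) / 2 := by
    unfold GS
    apply sum_congr rfl
    intro p hp
    rw [mem_filter] at hp
    have hpW : Nat.Coprime p W := by
      unfold Nat.Coprime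
      rw [Nat.ModEq.gcd_eq hp.2.2]
      exact hb
    unfold gw
    rw [if_pos ⟨hp.2.1, hpW⟩, delta_congr f δ W h p b hpW hp.2.2]
  have e1 : GS (gw f δ W) W b t = (1 / 2) * ((mean f W b t - δ b) * n) := by
    rw [e0]
    unfold mean
    rw [← hn, ← sum_div, sum_sub_distrib, sum_const, nsmul_eq_mul, ← hn]
    rcases hn0.eq_or_lt with h0 | h0
    · have hemp : (Icc 1 t).filter (fun p => p.Prime ∧ p ≡ b [MOD W]) = ∅ := by
        rw [← card_eq_zero]
        have : ((#((Icc 1 t).filter (fun p => p.Prime ∧ p ≡ b [MOD W])) : ℕ) : ℝ) = 0 := by rw [← hn, ← h0]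
        exact_mod_cast this
      rw [← h0, hemp, sum_empty]; simp
    · field_simp
  rw [e1, Real.norm_eq_abs, abs_div, abs_mul, abs_mul, abs_mul, abs_of_pos (by norm_num : (0 : ℝ) < 1 / 2), abs_of_nonneg hn0,
    abs_of_pos hlt, abs_of_pos (by linarith : (0 : ℝ) < t)]
  have h5 : n * Real.log t / t ≤ K := by
    rw [div_le_iff₀ (by linarith)]
    calc n * Real.log t ≤ (K * (t / Real.log t)) * Real.log t := mul_le_mul_of_nonneg_right hnK hlt.le
      _ = K * t := by field_simp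
  calc 1 / 2 * (|mean f W b t - δ b| * n) * Real.log t / t = (1 / 2 * |mean f W b t - δ b|) * (n * Real.log t / t) := by ring
    _ ≤ (1 / 2 * |mean f W b t - δ b|) * K := mul_le_mul_of_nonneg_left h5 (by positivity)
    _ = _ := by ring

/-- the number of the primes in the class -/
noncomputable def Q (W r A y : ℕ) : ℝ := ∑ x ∈ (Icc 1 y).filter (fun x => x % W = r), if (x ^ 2 + x + A).Prime then (1 : ℝ) else 0

lemma Q_nonneg (W r A y : ℕ) : 0 ≤ Q W r A y := by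
  unfold Q
  apply sum_nonneg
  intro n _
  split_ifs <;> norm_num

lemma Q_le (W r A y : ℕ) : Q W r A y ≤ R (fun _ => 1) A y := by
  unfold Q R
  apply sum_le_sum_of_subset_of_nonneg (filter_subset _ _)
  intro n _ _
  split_ifs <;> norm_num

/-- from logarithms to the number of the primes -/
lemma TH_Q (W r A y N : ℕ) (η : ℝ) (hη : 0 < η) (hη1 : η ≤ 1) (hN : 1 ≤ N) (hA : η * N < A) (hAN : A ≤ N) (hy : y ^ 2 ≤ N) :
    |TH W r A y - Real.log N * Q W r A y| ≤ (Real.log (1 / η) + Real.log 3) * Q W r A y := by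
  have hN1 : (1 : ℝ) ≤ N := by exact_mod_cast hN
  have hl3 : 0 ≤ Real.log 3 := Real.log_nonneg (by norm_num)
  have hlη : 0 ≤ Real.log (1 / η) := Real.log_nonneg (by rw [le_div_iff₀ hη]; linarith)
  unfold TH Q
  rw [mul_sum, ← sum_sub_distrib, mul_sum]
  refine (abs_sum_le_sum_abs _ _).trans (sum_le_sum fun x hx => ?_)
  rw [mem_filter, mem_Icc] at hx
  unfold thp
  split_ifs with hp
  · rw [mul_one, mul_one, abs_le]
    have h1 : x ^ 2 ≤ N := (Nat.pow_le_pow_left hx.1.2 2).trans hy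
    have h2 : x ≤ x ^ 2 := Nat.le_self_pow (by norm_num) x
    have h3 : ((x ^ 2 + x + A : ℕ) : ℝ) ≤ 3 * N := by exact_mod_cast (by omega : x ^ 2 + x + A ≤ 3 * N)
    have h4 : η * N ≤ ((x ^ 2 + x + A : ℕ) : ℝ) := by
      push_cast
      have : (0 : ℝ) ≤ (x : ℝ) ^ 2 + x := by positivity
      linarith
    have h5 := Real.log_le_log (lt_of_lt_of_le (mul_pos hη (by linarith)) h4) h3
    have h6 := Real.log_le_log (mul_pos hη (by linarith)) h4
    rw [Real.log_mul (by norm_num) (by linarith)] at h5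
    rw [Real.log_mul hη.ne' (by linarith)] at h6
    have h7 : Real.log (1 / η) = - Real.log η := by rw [one_div, Real.log_inv]
    constructor <;> linarith
  · simp

/-- the sum over the classes -/
lemma sum_classes (W A y : ℕ) (hW : 1 ≤ W) (hA : W < A) (δ : ℕ → ℝ)
    (hδ : ∀ b c : ℕ, Nat.Coprime b W → b ≡ c [MOD W] → δ b = δ c) :
    ∑ x ∈ Icc 1 y, (if (x ^ 2 + x + A).Prime then δ (x ^ 2 + x + A) else 0) =
      ∑ r ∈ (range W).filter (fun r => Nat.Coprime (r ^ 2 + r + A) W), δ (r ^ 2 + r + A) * Q W r A y := by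
  have hmod : ∀ x : ℕ, x ^ 2 + x + A ≡ (x % W) ^ 2 + x % W + A [MOD W] := by
    intro x
    have h1 : x ≡ x % W [MOD W] := (Nat.mod_modEq x W).symm
    exact ((h1.pow 2).add h1).add_right A
  have h1 : ∀ r ∈ (range W).filter (fun r => Nat.Coprime (r ^ 2 + r + A) W), δ (r ^ 2 + r + A) * Q W r A y =
      ∑ x ∈ (Icc 1 y).filter (fun x => x % W = r), if (x ^ 2 + x + A).Prime then δ (x ^ 2 + x + A) else 0 := by
    intro r hr
    rw [mem_filter] at hr
    unfold Q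
    rw [mul_sum]
    apply sum_congr rfl
    intro x hx
    rw [mem_filter] at hx
    split_ifs with hp
    · rw [mul_one]
      have h2 := hmod x
      rw [hx.2] at h2
      exact hδ _ _ hr.2 h2.symm
    · rw [mul_zero]
  rw [sum_congr rfl h1, ← sum_fiberwise_of_maps_to (s := Icc 1 y) (t := range W) (g := fun x => x % W)
    (fun x _ => mem_range.2 (Nat.mod_lt x hW))]
  symm
  apply sum_subset (filter_subset _ _)
  intro r hr hnr
  apply sum_eq_zero
  intro x hx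
  rw [mem_filter] at hx
  rw [if_neg]
  intro hp
  apply hnr
  rw [mem_filter]
  refine ⟨hr, ?_⟩
  have h2 := hmod x
  rw [hx.2] at h2
  unfold Nat.Coprime
  rw [← Nat.ModEq.gcd_eq h2]
  apply (Nat.Prime.coprime_iff_not_dvd hp).2
  intro hd
  have := Nat.le_of_dvd hW hd
  omega

/-- the average of the mean values over the admissible classes of the arguments -/
noncomputable def avg (δ : ℕ → ℝ) (W A : ℕ) : ℝ :=
  (∑ r ∈ (range W).filter (fun r => Nat.Coprime (r ^ 2 + r + A) W), δ (r ^ 2 + r + A)) /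
    #((range W).filter (fun r => Nat.Coprime (r ^ 2 + r + A) W))

theorem main (ε : ℝ) (hε : 0 < ε) :
    ∃ W₀ : ℕ, 1 ≤ W₀ ∧ ∀ W : ℕ, 1 ≤ W → W₀ ∣ W → ∀ f δ : ℕ → ℝ, (∀ p : ℕ, p.Prime → |f p| ≤ 1) →
      (∀ b : ℕ, Nat.Coprime b W → Tendsto (mean f W b) atTop (𝓝 (δ b))) →
    ∀ᶠ N : ℕ in atTop, ∃ Bad : Finset ℕ, (#Bad : ℝ) ≤ ε * N ∧ ∀ A : ℕ, 3 ≤ A → A ≤ N → Odd A → A ∉ Bad →
      ∃ K : ℝ, 0 < K ∧ Tendsto (fun z : ℕ => C A z) atTop (𝓝 K) ∧
        ∀ y : ℕ, y ^ 2 ≤ N → |R f A y - K * avg δ W A * L A y| ≤ ε * (Real.sqrt N / Real.log N) := by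
  classical
  obtain ⟨ε₁, hε₁⟩ : ∃ ε₁ : ℝ, ε₁ = min 1 (ε / 8) := ⟨_, rfl⟩
  have hε₁0 : 0 < ε₁ := by rw [hε₁]; positivity
  have hε₁1 : ε₁ ≤ 1 := by rw [hε₁]; exact min_le_left _ _
  have hε₁8 : ε₁ ≤ ε / 8 := by rw [hε₁]; exact min_le_right _ _
  obtain ⟨W₀, hW₀, H, hH, hall⟩ := all_len ε₁ hε₁0 hε₁1
  refine ⟨2 * W₀, by omega, fun W hW hWd f δ hf hδ => ?_⟩
  have hWe : Even W := by
    rw [even_iff_two_dvd]
    exact (dvd_mul_right 2 W₀).trans hWd
  have hWd' : W₀ ∣ W := (dvd_mul_left W₀ 2).trans hWd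
  have hW0 : (0 : ℝ) < W := by exact_mod_cast hW
  have hW1 : (1 : ℝ) ≤ W := by exact_mod_cast hW
  have hg1 : ∀ p, |gw f δ W p| ≤ 1 := gw_bd f δ hf W hδ
  have hgz : MW (gw f δ W) W₀ := MW_of_dvd hg1 hW hWd' (gw_MW f δ W hδ)
  obtain ⟨ε₂, hε₂⟩ : ∃ ε₂ : ℝ, ε₂ = ε₁ / (4 * W) := ⟨_, rfl⟩
  have hε₂0 : 0 < ε₂ := by rw [hε₂]; positivity
  have hε₂W : W * ε₂ = ε₁ / 4 := by rw [hε₂]; field_simp
  have hε₂1 : ε₂ ≤ ε₁ := by nlinarith
  obtain ⟨κ, hκ⟩ : ∃ κ : ℝ, κ = Real.log (1 / (ε₁ / 8)) + Real.log 3 := ⟨_, rfl⟩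
  have hκ0 : 0 ≤ κ := by
    rw [hκ]
    apply add_nonneg
    · apply Real.log_nonneg
      rw [le_div_iff₀ (by positivity)]
      linarith
    · exact Real.log_nonneg (by norm_num)
  have hlogt : Tendsto (fun N : ℕ => Real.log N) atTop atTop := Real.tendsto_log_atTop.comp tendsto_natCast_atTop_atTop
  have ev1 := hlogt.eventually_ge_atTop (5 * κ * H / ε₂ + 2 * Real.log (1 / (ε₁ / 8)) + 1)
  have ev2 : ∀ᶠ N : ℕ in atTop, 8 / ε₁ * Real.log N ≤ Real.sqrt N := by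
    have k1 := (isLittleO_log_rpow_atTop (show (0 : ℝ) < 1 / 2 by norm_num)).bound (show 0 < ε₁ / 8 by positivity)
    filter_upwards [tendsto_natCast_atTop_atTop (R := ℝ) |>.eventually k1] with N k1
    rw [Real.norm_of_nonneg (Real.log_natCast_nonneg N), Real.norm_of_nonneg (by positivity), ← Real.sqrt_eq_rpow] at k1
    rw [div_mul_eq_mul_div, div_le_iff₀ hε₁0]
    linarith
  have ev3 : ∀ᶠ N : ℕ in atTop, 8 * W / ε₁ ≤ (N : ℝ) := tendsto_natCast_atTop_atTop.eventually_ge_atTop _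
  filter_upwards [hall _ hg1 hgz, theta_all W hW hWe ε₂ hε₂0, ev1, ev2, ev3, eventually_ge_atTop 3] with N hN1 hN2 hl hsl hNW hN3
  obtain ⟨Bad1, hBad1, hg⟩ := hN1
  obtain ⟨Bad2, hBad2, ht⟩ := hN2
  have hN3r : (3 : ℝ) ≤ N := by exact_mod_cast hN3
  have hN0 : (0 : ℝ) < N := by linarith
  have hlη : 0 ≤ Real.log (1 / (ε₁ / 8)) := by
    apply Real.log_nonneg
    rw [le_div_iff₀ (by positivity)]
    linarith
  have hq0 : 0 ≤ 5 * κ * H / ε₂ := by positivity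
  obtain ⟨ℓ, hℓ⟩ : ∃ ℓ : ℝ, ℓ = Real.log N := ⟨_, rfl⟩
  obtain ⟨s, hs⟩ : ∃ s : ℝ, s = Real.sqrt N := ⟨_, rfl⟩
  obtain ⟨E, hE⟩ : ∃ E : ℝ, E = s / ℓ := ⟨_, rfl⟩
  have hℓ1 : 1 ≤ ℓ := by rw [hℓ]; linarith
  have hℓ0 : 0 < ℓ := by linarith
  have hs0 : 0 < s := by rw [hs]; exact Real.sqrt_pos.2 hN0
  have hE0 : 0 < E := by rw [hE]; positivity
  have hEl : E * ℓ = s := by rw [hE]; field_simp
  have hE8 : 8 ≤ ε₁ * E := by
    rw [← hℓ, ← hs] at hsl
    rw [hE, ← mul_div_assoc, le_div_iff₀ hℓ0]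
    rw [div_mul_eq_mul_div, div_le_iff₀ hε₁0] at hsl
    linarith
  refine ⟨Bad1 ∪ Bad2, ?_, fun A hA3 hAN hodd hAB => ?_⟩
  · have k : (#(Bad1 ∪ Bad2) : ℝ) ≤ #Bad1 + #Bad2 := by exact_mod_cast card_union_le Bad1 Bad2
    nlinarith
  rw [mem_union, not_or] at hAB
  obtain ⟨hηA, K, hK0, hKH, hKlim, hy⟩ := hg A hA3 hAN hodd hAB.1
  obtain ⟨S, hS0, hSall⟩ := ht A hAN hAB.2
  refine ⟨K, hK0, hKlim, fun y hyN => ?_⟩
  obtain ⟨hP, hR⟩ := hy y hyN
  rw [← hs, ← hℓ, ← hE] at hP hR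
  rw [← hs, ← hℓ, ← hE]
  have hA3r : (3 : ℝ) ≤ A := by exact_mod_cast hA3
  have hWA : W < A := by
    have h1 : (W : ℝ) ≤ ε₁ / 8 * N := by
      rw [div_le_iff₀ hε₁0] at hNW
      linarith
    exact_mod_cast lt_of_le_of_lt h1 hηA
  have hys : (y : ℝ) ≤ s := by
    rw [hs]
    apply Real.le_sqrt_of_sq_le
    exact_mod_cast hyN
  have hy0 : (0 : ℝ) ≤ y := Nat.cast_nonneg _
  -- the bound for the number of the primes
  have hlA : ℓ / 2 ≤ Real.log A := by
    have h1 : Real.log (ε₁ / 8 * N) ≤ Real.log A := Real.log_le_log (by positivity) hηA.le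
    rw [Real.log_mul (by positivity) hN0.ne', ← hℓ] at h1
    have h2 : Real.log (1 / (ε₁ / 8)) = - Real.log (ε₁ / 8) := by rw [one_div, Real.log_inv]
    rw [← hℓ] at hl
    linarith
  have hL0 : L A 0 = 0 := by
    unfold L
    simp
  have hL := L_diff A hA3 0 y (Nat.zero_le _)
  rw [hL0, sub_zero, Nat.cast_zero, sub_zero] at hL
  have hL4 : L A y ≤ 4 * E := by
    refine hL.2.trans ?_
    calc 2 * (y : ℝ) / Real.log A ≤ 2 * s / (ℓ / 2) := div_le_div₀ (by positivity) (by linarith) (by positivity) hlA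
      _ = 4 * E := by rw [hE]; field_simp; norm_num
  have hKL : K * L A y ≤ 4 * H * E := by
    calc K * L A y ≤ H * (4 * E) := mul_le_mul hKH hL4 hL.1 (by linarith)
      _ = 4 * H * E := by ring
  have hR1 := R_one A y
  have hPy := abs_le.1 hP
  have hR1b : R (fun _ => 1) A y ≤ 5 * H * E := by
    have h1 : ε₁ / 16 * E ≤ H * E := mul_le_mul_of_nonneg_right (by linarith) hE0.le
    linarith [hR1.2, hPy.2]
  -- each class
  obtain ⟨G, hG⟩ : ∃ G : Finset ℕ, G = (range W).filter (fun r => Nat.Coprime (r ^ 2 + r + A) W) := ⟨_, rfl⟩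
  have hGW : (#G : ℝ) ≤ W := by
    have : #G ≤ W := by
      rw [hG]
      exact (card_filter_le _ _).trans (by rw [card_range])
    exact_mod_cast this
  obtain ⟨Y, hY⟩ : ∃ Y : ℝ, Y = S * y / W / ℓ := ⟨_, rfl⟩
  have hQr : ∀ r ∈ G, |Q W r A y - Y| ≤ 2 * ε₂ * E := by
    intro r hr
    rw [hG, mem_filter, mem_range] at hr
    have h1 := hSall r hr.1 hr.2 y hyN
    have h2 := TH_Q W r A y N (ε₁ / 8) (by positivity) (by linarith) (by omega) hηA hAN hyN
    rw [← hκ, ← hℓ] at h2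
    rw [← hs] at h1
    have h3 : κ * Q W r A y ≤ κ * (5 * H * E) := mul_le_mul_of_nonneg_left ((Q_le W r A y).trans hR1b) hκ0
    have h4 : |ℓ * Q W r A y - S * y / W| ≤ ε₂ * s + κ * (5 * H * E) := by
      have e : ℓ * Q W r A y - S * y / W = (TH W r A y - S * y / W) - (TH W r A y - ℓ * Q W r A y) := by ring
      rw [e]
      refine (abs_sub _ _).trans ?_
      linarith
    have h5 : κ * (5 * H * E) ≤ ε₂ * s := by
      have h6 : 5 * κ * H ≤ ε₂ * ℓ := by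
        have h7 : 5 * κ * H / ε₂ ≤ ℓ := by rw [hℓ]; linarith
        rw [div_le_iff₀ hε₂0] at h7
        linarith
      calc κ * (5 * H * E) = (5 * κ * H) * E := by ring
        _ ≤ (ε₂ * ℓ) * E := mul_le_mul_of_nonneg_right h6 hE0.le
        _ = ε₂ * s := by rw [← hEl]; ring
    have h6 : ℓ * |Q W r A y - Y| ≤ ℓ * (2 * ε₂ * E) := by
      have e : ℓ * (Q W r A y - Y) = ℓ * Q W r A y - S * y / W := by
        rw [hY]; field_simp
      rw [← abs_of_pos hℓ0, ← abs_mul, abs_of_pos hℓ0, e]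
      calc _ ≤ ε₂ * s + κ * (5 * H * E) := h4
        _ ≤ ε₂ * s + ε₂ * s := by linarith
        _ = ℓ * (2 * ε₂ * E) := by rw [← hEl]; ring
    exact le_of_mul_le_mul_left h6 hℓ0
  -- a weighted sum over the classes
  have hsum : ∀ w : ℕ → ℝ, (∀ r ∈ G, |w r| ≤ 1) → |∑ r ∈ G, w r * Q W r A y - (∑ r ∈ G, w r) * Y| ≤ ε₁ / 2 * E := by
    intro w hw
    rw [sum_mul, ← sum_sub_distrib]
    calc |∑ r ∈ G, (w r * Q W r A y - w r * Y)| ≤ ∑ r ∈ G, |w r * Q W r A y - w r * Y| := abs_sum_le_sum_abs _ _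
      _ ≤ ∑ _r ∈ G, 2 * ε₂ * E := by
          apply sum_le_sum
          intro r hr
          rw [← mul_sub, abs_mul]
          calc |w r| * |Q W r A y - Y| ≤ 1 * (2 * ε₂ * E) := mul_le_mul (hw r hr) (hQr r hr) (abs_nonneg _) (by norm_num)
            _ = _ := one_mul _
      _ = #G * (2 * ε₂ * E) := by rw [sum_const, nsmul_eq_mul]
      _ ≤ W * (2 * ε₂ * E) := mul_le_mul_of_nonneg_right hGW (by positivity)
      _ = 2 * (W * ε₂) * E := by ring
      _ = ε₁ / 2 * E := by rw [hε₂W]; ring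
  have hone : |R (fun _ => 1) A y - #G * Y| ≤ ε₁ / 2 * E := by
    have h1 := hsum (fun _ => 1) (fun _ _ => by norm_num)
    have h2 := sum_classes W A y hW hWA (fun _ => 1) (fun _ _ _ _ => rfl)
    rw [← hG] at h2
    have h3 : R (fun _ => 1) A y = ∑ r ∈ G, (1 : ℝ) * Q W r A y := h2
    rw [h3]
    simpa using h1
  have hdel : |∑ x ∈ Icc 1 y, (if (x ^ 2 + x + A).Prime then δ (x ^ 2 + x + A) else 0) - (∑ r ∈ G, δ (r ^ 2 + r + A)) * Y| ≤
      ε₁ / 2 * E := by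
    have h2 := sum_classes W A y hW hWA δ (fun b c hb hbc => delta_congr f δ W hδ b c hb hbc)
    rw [← hG] at h2
    rw [h2]
    apply hsum (fun r => δ (r ^ 2 + r + A))
    intro r hr
    rw [hG, mem_filter] at hr
    exact delta_bd f δ hf W hδ _ hr.2
  obtain ⟨M, hM⟩ : ∃ M : ℝ, M = avg δ W A := ⟨_, rfl⟩
  have hMG : ∑ r ∈ G, δ (r ^ 2 + r + A) = M * #G := by
    rw [hM]
    unfold avg
    rw [← hG]
    rcases Nat.eq_zero_or_pos #G with h0 | h0
    · rw [card_eq_zero] at h0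
      rw [h0]; simp
    · have : (0 : ℝ) < #G := by exact_mod_cast h0
      field_simp
  have hM1 : |M| ≤ 1 := by
    rw [hM]
    unfold avg
    rw [← hG, abs_div, Nat.abs_cast]
    apply div_le_one_of_le₀ _ (Nat.cast_nonneg _)
    calc |∑ r ∈ G, δ (r ^ 2 + r + A)| ≤ ∑ r ∈ G, |δ (r ^ 2 + r + A)| := abs_sum_le_sum_abs _ _
      _ ≤ ∑ _r ∈ G, (1 : ℝ) := by
          apply sum_le_sum
          intro r hr
          rw [hG, mem_filter] at hr
          exact delta_bd f δ hf W hδ _ hr.2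
      _ = #G := by simp
  -- decomposition of the weight
  have hdec : R f A y = 2 * R (gw f δ W) A y + ∑ x ∈ Icc 1 y, (if (x ^ 2 + x + A).Prime then δ (x ^ 2 + x + A) else 0) := by
    unfold R
    rw [mul_sum, ← sum_add_distrib]
    apply sum_congr rfl
    intro x _
    split_ifs with hp
    · have hcop : Nat.Coprime (x ^ 2 + x + A) W := by
        apply (Nat.Prime.coprime_iff_not_dvd hp).2
        intro hd
        have := Nat.le_of_dvd hW hd
        nlinarith [Nat.zero_le (x ^ 2), Nat.zero_le x]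
      unfold gw
      rw [if_pos ⟨hp, hcop⟩]
      ring
    · simp
  have hKG : |#G * Y - K * L A y| ≤ ε₁ / 2 * E + ε₁ / 16 * E + 1 := by
    have a1 := abs_le.1 hone
    rw [abs_le]
    constructor <;> linarith [a1.1, a1.2, hR1.1, hR1.2, hPy.1, hPy.2]
  have hfin : R f A y - K * M * L A y = 2 * R (gw f δ W) A y +
      (∑ x ∈ Icc 1 y, (if (x ^ 2 + x + A).Prime then δ (x ^ 2 + x + A) else 0) - (∑ r ∈ G, δ (r ^ 2 + r + A)) * Y) +
      M * (#G * Y - K * L A y) := by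
    rw [hdec, hMG]; ring
  rw [← hM, hfin]
  refine (abs_add_three _ _ _).trans ?_
  have h1 : |2 * R (gw f δ W) A y| ≤ 2 * (ε₁ * E) := by
    rw [abs_mul, abs_of_pos (by norm_num : (0 : ℝ) < 2)]
    linarith
  have h2 : |M * (#G * Y - K * L A y)| ≤ ε₁ / 2 * E + ε₁ / 16 * E + 1 := by
    rw [abs_mul]
    calc |M| * |#G * Y - K * L A y| ≤ 1 * (ε₁ / 2 * E + ε₁ / 16 * E + 1) :=
          mul_le_mul hM1 hKG (abs_nonneg _) (by norm_num)
      _ = _ := one_mul _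
  have h3 : ε₁ * E ≤ ε / 8 * E := mul_le_mul_of_nonneg_right hε₁8 hE0.le
  linarith

end Pool.Agent.Helper64.EQ
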